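import Pool.Agent.UR78.Good

/-!
# Distributivity in the presence of Plenitude
-/

namespace Pool.Agent.UR78

open FirstOrder FirstOrder.Language
open Pool.Agent.Helper672.ZFA Pool.Agent.H839R3

universe u

variable {M : Type u} [L.Structure M] [hM : ZM M]

/-- `S` is large compared with `a`, `S0` and the union of `g`. -/
def Ab (a S0 g S : M) : Prop := ∃ X f, (∀ z, Mem z X ↔ ∃ i s, Mem i a ∧
  (Mem s S0 ∨ ∃ w, Mem w g ∧ Mem s w) ∧ z = op i s) ∧ InjF f X S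

theorem D.ab (a S0 : M) {ι : Type} {f g : (ι → M) → M} (hf : DF f) (hg : DF g) :
    D (fun v => Ab a S0 (f v) (g v)) := by
  have h : D (fun v : Fin 2 → M => Ab a S0 (v 0) (v 1)) := by
    unfold Ab
    refine D.ex (D.ex (D.and (D.all (D.iff (D.memf (DF.var _) (DF.var _)) (D.ex (D.ex (D.and
      (D.memf (DF.var _) (DF.const _)) (D.and (D.or (D.memf (DF.var _) (DF.const _)) (D.ex (D.and
      (D.memf (DF.var _) (DF.var _)) (D.memf (DF.var _) (DF.var _))))) (D.eqf (DF.var _)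
      (DF.op (DF.var _) (DF.var _))))))))) (D.injF (DF.var _) (DF.var _) (DF.var _))))
  exact D.subst₂ h hf hg

theorem exists_ab (a S0 g : M) : ∃ S, Lev (em M) S ∧ Ab a S0 g S := by
  obtain ⟨w, -, hw⟩ := hM.union g
  have h1 := sm_union S0 w
  obtain ⟨S, h2, f, h3⟩ := exists_pure_level (small_prod a h1.elt).elt
  refine ⟨S, h2, _, f, fun z => (small_prod _ _).mem.trans ?_, h3⟩
  constructor
  · rintro ⟨i, s, h4, h5, h6⟩
    exact ⟨i, s, h4, (h1.mem.1 h5).imp id fun h => (hw s).1 h |>.imp fun _ h => h, h6⟩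
  · rintro ⟨i, s, h4, h5, h6⟩
    exact ⟨i, s, h4, h1.mem.2 (h5.imp id fun h => (hw s).2 (h.imp fun _ h => h)), h6⟩

/-- The next size. -/
def NS (Φ : M → M → M → Prop) (p a S0 g T : M) : Prop :=
  ∃ S, Lev (em M) S ∧ Ab a S0 g S ∧ Gd Φ p a S T

theorem D.ns {Φ : M → M → M → Prop} (hΦ : Nm Φ) (p a S0 : M) {ι : Type} {f g : (ι → M) → M}
    (hf : DF f) (hg : DF g) : D (fun v => NS Φ p a S0 (f v) (g v)) := by
  have h : D (fun v : Fin 2 → M => NS Φ p a S0 (v 0) (v 1)) := by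
    unfold NS
    exact D.ex (D.and (D.lev (DF.const _) (DF.var _)) (D.and (D.ab _ _ (DF.var _) (DF.var _))
      (D.gd hΦ _ _ (DF.var _) (DF.var _))))
  exact D.subst₂ h hf hg

/-- The urelements available at stage `j`. -/
def Ej (r a E φ j w : M) : Prop := IsSet w ∧ ∀ u, Mem u w ↔ Mem u E ∨ ∃ i s, Mem i a ∧
  (Mem (op i j) r ∨ i = j) ∧ Mem (op (op i s) u) φ

theorem D.ej (r a E φ : M) {ι : Type} {f g : (ι → M) → M} (hf : DF f) (hg : DF g) :
    D (fun v => Ej r a E φ (f v) (g v)) := by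
  have h : D (fun v : Fin 2 → M => Ej r a E φ (v 0) (v 1)) := by
    unfold Ej
    exact D.and (D.isSetf (DF.var _)) (D.all (D.iff (D.memf (DF.var _) (DF.var _)) (D.or
      (D.memf (DF.var _) (DF.const _)) (D.ex (D.ex (D.and (D.memf (DF.var _) (DF.const _)) (D.and
      (D.or (D.memf (DF.op (DF.var _) (DF.var _)) (DF.const _)) (D.eqf (DF.var _) (DF.var _)))
      (D.memf (DF.op (DF.op (DF.var _) (DF.var _)) (DF.var _)) (DF.const _)))))))))
  exact D.subst₂ h hf hg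

/-- The candidates at stage `j`. -/
def Cj (Φ : M → M → M → Prop) (p r a E φ H V j g y : M) : Prop := Mem y V ∧ ∃ q t f T w,
  y = op q (op t f) ∧ Cond q ∧ MSub p q ∧ (∀ z q' c, Mem z g → z = op q' c → MSub q' q) ∧
  Mem (op j T) H ∧ Sm T q t f ∧ Ej r a E φ j w ∧ Over w t ∧ Rd Φ j q

theorem D.cj {Φ : M → M → M → Prop} (hΦ : Nm Φ) (p r a E φ H V : M) {ι : Type}
    {f g h : (ι → M) → M} (hf : DF f) (hg : DF g) (hh : DF h) :
    D (fun v => Cj Φ p r a E φ H V (f v) (g v) (h v)) := by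
  have h1 : D (fun v : Fin 3 → M => Cj Φ p r a E φ H V (v 0) (v 1) (v 2)) := by
    unfold Cj
    refine D.and (D.memf (DF.var _) (DF.const _)) (D.ex (D.ex (D.ex (D.ex (D.ex (D.and
      (D.eqf (DF.var _) (DF.op (DF.var _) (DF.op (DF.var _) (DF.var _)))) (D.and
      (D.cond (DF.var _)) (D.and (D.msub (DF.const _) (DF.var _)) (D.and ?_ (D.and
      (D.memf (DF.op (DF.var _) (DF.var _)) (DF.const _)) (D.and
      (D.sm (DF.var _) (DF.var _) (DF.var _) (DF.var _)) (D.and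
      (D.ej _ _ _ _ (DF.var _) (DF.var _)) (D.and (D.over (DF.var _) (DF.var _))
      (D.rd hΦ (DF.var _) (DF.var _)))))))))))))))
    exact D.all (D.all (D.all (D.imp (D.memf (DF.var _) (DF.var _)) (D.imp (D.eqf (DF.var _)
      (DF.op (DF.var _) (DF.var _))) (D.msub (DF.var _) (DF.var _))))))
  exact D.subst₃ h1 hf hg hh

theorem D.prev (r a f : M) {ι : Type} {k g : (ι → M) → M} (hk : DF k) (hg : DF g) :
    D (fun v => Prev r a f (k v) (g v)) := by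
  have h : D (fun v : Fin 2 → M => Prev r a f (v 0) (v 1)) := by
    unfold Prev
    exact D.and (D.isSetf (DF.var _)) (D.all (D.iff (D.memf (DF.var _) (DF.var _)) (D.ex (D.and
      (D.memf (DF.var _) (DF.const _)) (D.and (D.memf (DF.op (DF.var _) (DF.var _)) (DF.const _))
      (D.memf (DF.op (DF.var _) (DF.var _)) (DF.const _)))))))
  exact D.subst₂ h hk hg

/-- The data of the construction at the stages before `j`. -/
structure Stage (Φ : M → M → M → Prop) (p r a E φ H V K U F S0 tp fp : M) : Prop where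
  wo : WO r a
  hE : Ur E
  hF : Ur F
  hFE : ∀ u, Mem u F → ¬ Mem u E
  hφ : InjF φ (small_prod a U).elt F
  haE : Over E a
  hpE : Over E p
  hp : Cond p
  hH : ∀ j, Mem j a → ∃ T g, Lev (em M) T ∧ MSub T U ∧ Prev r a H j g ∧ NS Φ p a S0 g T ∧
    ∀ T', Mem (op j T') H ↔ T' = T
  htp : Sm S0 p tp fp ∧ Over E tp
  hV : ∀ q t f, Sm U q t f → (∀ u, Mem u t → ¬ IsSet u → Mem u (sm_union E F).elt) →
    Mem (op q (op t f)) V

/-- The existence of candidates. -/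
theorem exists_cj (hpl : Plenty M) {Φ : M → M → M → Prop}
    {p r a E φ H V K U F S0 tp fp : M} (hs : Supp E Φ)
    (st : Stage Φ p r a E φ H V K U F S0 tp fp) {j g : M} (hj : Mem j a) (hg : Prev r a K j g)
    (hKu : ∀ i, Mem i a → Mem (op i j) r → ∀ z z', Mem (op i z) K → Mem (op i z') K → z = z')
    (hKe : ∀ i, Mem i a → Mem (op i j) r → ∃ z, Mem (op i z) K)
    (ih : ∀ i, Mem i a → Mem (op i j) r → ∀ z, Mem (op i z) K → ∃ g', Prev r a K i g' ∧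
      Cj Φ p r a E φ H V i g' z) : ∃ y, Cj Φ p r a E φ H V j g y := by
  obtain ⟨hr, hE, hF, hFE, hφ, haE, hpE, hp, hH, ⟨htp, htpE⟩, hV⟩ := st
  -- the components of the previous values
  have hcomp : ∀ z, Mem z g → ∃ q t f, z = op q (op t f) := by
    intro z hz
    obtain ⟨i, h1, h2, h3⟩ := (hg.2 z).1 hz
    obtain ⟨g', -, -, q, t, f, T, w, h4, -⟩ := ih i h1 h2 z h3
    exact ⟨q, t, f, h4⟩
  obtain ⟨gq, -, hgq⟩ := hM.repl (fun z q => ∃ c, z = op q c) (D.ex (D.eqf (DF.var _)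
    (DF.op (DF.var _) (DF.var _)))) g fun z hz => by
      obtain ⟨q, t, f, rfl⟩ := hcomp z hz
      refine ⟨q, ⟨_, rfl⟩, ?_⟩
      rintro q' ⟨c, h⟩
      exact (op_inj h).1.symm
  obtain ⟨gt, -, hgt⟩ := hM.repl (fun z t => ∃ q f, z = op q (op t f)) (D.ex (D.ex (D.eqf
    (DF.var _) (DF.op (DF.var _) (DF.op (DF.var _) (DF.var _)))))) g fun z hz => by
      obtain ⟨q, t, f, rfl⟩ := hcomp z hz
      refine ⟨t, ⟨_, _, rfl⟩, ?_⟩
      rintro t' ⟨q', f', h⟩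
      exact (op_inj (op_inj h).2).1.symm
  -- facts about the previous values
  have hprev : ∀ u, Mem u gq → ∃ i c, Mem i a ∧ Mem (op i j) r ∧ Mem (op i (op u c)) K := by
    intro u hu
    obtain ⟨z, hz, c, rfl⟩ := (hgq u).1 hu
    obtain ⟨i, h1, h2, h3⟩ := (hg.2 _).1 hz
    exact ⟨i, c, h1, h2, h3⟩
  have hall : ∀ i q t f, Mem i a → Mem (op i j) r → Mem (op i (op q (op t f))) K →
      Cond q ∧ MSub p q ∧ (∃ T w, Mem (op i T) H ∧ Sm T q t f ∧ Ej r a E φ i w ∧ Over w t) ∧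
      ∀ k q' c, Mem k a → Mem (op k i) r → Mem (op k (op q' c)) K → MSub q' q := by
    intro i q t f h1 h2 h3
    obtain ⟨g', h4, -, q', t', f', T, w, h5, h6, h7, h8, h9, h10, h11, h12, -⟩ := ih i h1 h2 _ h3
    obtain ⟨rfl, h13⟩ := op_inj h5
    obtain ⟨rfl, rfl⟩ := op_inj h13
    exact ⟨h6, h7, ⟨T, w, h9, h10, h11, h12⟩, fun k q' c h14 h15 h16 =>
      h8 _ q' c ((h4.2 _).2 ⟨k, h14, h15, h16⟩) rfl⟩
  obtain ⟨q, hq1, hq2, hq3, hq4⟩ := exists_chain (p := p) (g := gq) hp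
    (fun u hu => by
      obtain ⟨i, c, h1, h2, h3⟩ := hprev u hu
      obtain ⟨q', t', f', h4⟩ := hcomp _ ((hg.2 _).2 ⟨i, h1, h2, h3⟩)
      obtain ⟨rfl, rfl⟩ := op_inj h4
      exact (hall i _ _ _ h1 h2 h3).1)
    (fun u hu => by
      obtain ⟨i, c, h1, h2, h3⟩ := hprev u hu
      obtain ⟨q', t', f', h4⟩ := hcomp _ ((hg.2 _).2 ⟨i, h1, h2, h3⟩)
      obtain ⟨rfl, rfl⟩ := op_inj h4
      exact (hall i _ _ _ h1 h2 h3).2.1)
    (fun u v hu hv => by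
      obtain ⟨i, c, h1, h2, h3⟩ := hprev u hu
      obtain ⟨k, c', h1', h2', h3'⟩ := hprev v hv
      obtain ⟨q', t', f', h4⟩ := hcomp _ ((hg.2 _).2 ⟨i, h1, h2, h3⟩)
      obtain ⟨rfl, rfl⟩ := op_inj h4
      obtain ⟨q', t'', f'', h4'⟩ := hcomp _ ((hg.2 _).2 ⟨k, h1', h2', h3'⟩)
      obtain ⟨rfl, rfl⟩ := op_inj h4'
      rcases hr.total i k h1 h1' with h5 | rfl | h5
      · exact Or.inl ((hall k _ _ _ h1' h2' h3').2.2.2 i _ _ h1 h5 h3)
      · have h6 := hKu i h1 h2 _ _ h3 h3'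
        obtain ⟨rfl, -⟩ := op_inj h6
        exact Or.inl fun _ => id
      · exact Or.inr ((hall i _ _ _ h1 h2 h3).2.2.2 k _ _ h1' h5 h3'))
  obtain ⟨wt, -, hwt⟩ := hM.union gt
  have ht := sm_union tp wt
  have ht' : ∀ x, Mem x ht.elt ↔ Mem x tp ∨ ∃ i q t f, Mem i a ∧ Mem (op i j) r ∧
      Mem (op i (op q (op t f))) K ∧ Mem x t := by
    intro x
    rw [ht.mem]
    refine or_congr_right ((hwt x).trans ?_)
    constructor
    · rintro ⟨t, h1, h2⟩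
      obtain ⟨z, h3, q, f, rfl⟩ := (hgt t).1 h1
      obtain ⟨i, h4, h5, h6⟩ := (hg.2 _).1 h3
      exact ⟨i, q, t, f, h4, h5, h6, h2⟩
    · rintro ⟨i, q, t, f, h4, h5, h6, h2⟩
      exact ⟨t, (hgt t).2 ⟨_, (hg.2 _).2 ⟨i, h4, h5, h6⟩, q, f, rfl⟩, h2⟩
  -- the size of the union
  obtain ⟨T, g', hT, hTU, hg', ⟨S, hS, ⟨X, fX, hX, hfX⟩, hgd⟩, hTu⟩ := hH j hj
  obtain ⟨f0, hf0, -⟩ := exists_injF (M := M) (A := ht.elt) (B := X)
    (K := fun x z => (∃ i s q t f, z = op i s ∧ Mem i a ∧ Mem (op i j) r ∧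
      Mem (op i (op q (op t f))) K ∧ Mem (op x s) f ∧ ∀ i2 q2 t2 f2, Mem i2 a → Mem (op i2 i) r →
        Mem (op i2 (op q2 (op t2 f2))) K → ¬ Mem x t2) ∨
      (∃ s, z = op j s ∧ Mem (op x s) fp ∧ ∀ i2 q2 t2 f2, Mem i2 a → Mem (op i2 j) r →
        Mem (op i2 (op q2 (op t2 f2))) K → ¬ Mem x t2))
    (by
      refine D.or (D.ex (D.ex (D.ex (D.ex (D.ex (D.and (D.eqf (DF.var _) (DF.op (DF.var _)
        (DF.var _))) (D.and (D.memf (DF.var _) (DF.const _)) (D.and (D.memf (DF.op (DF.var _)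
        (DF.const _)) (DF.const _)) (D.and (D.memf (DF.op (DF.var _) (DF.op (DF.var _)
        (DF.op (DF.var _) (DF.var _)))) (DF.const _)) (D.and (D.memf (DF.op (DF.var _)
        (DF.var _)) (DF.var _)) ?_)))))))))) (D.ex (D.and (D.eqf (DF.var _) (DF.op (DF.const _)
        (DF.var _))) (D.and (D.memf (DF.op (DF.var _) (DF.var _)) (DF.const _)) ?_)))
      · exact D.all (D.all (D.all (D.all (D.imp (D.memf (DF.var _) (DF.const _)) (D.imp (D.memf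
          (DF.op (DF.var _) (DF.var _)) (DF.const _)) (D.imp (D.memf (DF.op (DF.var _)
          (DF.op (DF.var _) (DF.op (DF.var _) (DF.var _)))) (DF.const _))
          (D.not (D.memf (DF.var _) (DF.var _)))))))))
      · exact D.all (D.all (D.all (D.all (D.imp (D.memf (DF.var _) (DF.const _)) (D.imp (D.memf
          (DF.op (DF.var _) (DF.const _)) (DF.const _)) (D.imp (D.memf (DF.op (DF.var _)
          (DF.op (DF.var _) (DF.op (DF.var _) (DF.var _)))) (DF.const _))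
          (D.not (D.memf (DF.var _) (DF.var _))))))))))
    (by
      rintro x z (⟨i, s, q, t, f, rfl, h1, h2, h3, h4, -⟩ | ⟨s, rfl, h1, -⟩)
      · obtain ⟨-, -, ⟨T', w, h5, h6, -⟩, -⟩ := hall i q t f h1 h2 h3
        have h7 := InjF.mem h6.2.2.2.2 h4
        exact ⟨(ht' x).2 (Or.inr ⟨i, q, t, f, h1, h2, h3, h7.1⟩), (hX _).2 ⟨i, s, h1,
          Or.inr ⟨T', (hg'.2 T').2 ⟨i, h1, h2, h5⟩, h7.2⟩, rfl⟩⟩
      · have h7 := InjF.mem htp.2.2.2.2 h1
        exact ⟨(ht' x).2 (Or.inl h7.1), (hX _).2 ⟨j, s, hj, Or.inl h7.2, rfl⟩⟩)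
    (by
      intro x hx
      by_cases h : ∃ i, Mem i a ∧ (Mem (op i j) r ∧ ∃ q t f, Mem (op i (op q (op t f))) K ∧
        Mem x t)
      · obtain ⟨i, h1, ⟨h2, q, t, f, h3, h4⟩, h5⟩ := hr.least (fun i => Mem (op i j) r ∧
          ∃ q t f, Mem (op i (op q (op t f))) K ∧ Mem x t) (D.and (D.memf (DF.op (DF.var _)
          (DF.const _)) (DF.const _)) (D.ex (D.ex (D.ex (D.and (D.memf (DF.op (DF.var _)
          (DF.op (DF.var _) (DF.op (DF.var _) (DF.var _)))) (DF.const _))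
          (D.memf (DF.const _) (DF.var _))))))) h
        obtain ⟨-, -, ⟨T', w, -, h6, -⟩, -⟩ := hall i q t f h1 h2 h3
        obtain ⟨s, hs⟩ := h6.2.2.2.2.2.2.1 x h4
        exact ⟨op i s, Or.inl ⟨i, s, q, t, f, rfl, h1, h2, h3, hs, fun i2 q2 t2 f2 h7 h8 h9 h10 =>
          h5 i2 h7 ⟨hr.trans i2 i j h7 h1 hj h8 h2, q2, t2, f2, h9, h10⟩ h8⟩⟩
      · rcases (ht' x).1 hx with h1 | ⟨i, q, t, f, h1, h2, h3, h4⟩
        · obtain ⟨s, hs⟩ := htp.2.2.2.2.2.2.1 x h1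
          exact ⟨op j s, Or.inr ⟨s, rfl, hs, fun i2 q2 t2 f2 h7 h8 h9 h10 =>
            h ⟨i2, h7, h8, q2, t2, f2, h9, h10⟩⟩⟩
        · exact absurd ⟨i, h1, h2, q, t, f, h3, h4⟩ h)
    (by
      rintro x z z' (⟨i, s, q, t, f, rfl, h1, h2, h3, h4, h5⟩ | ⟨s, rfl, h4, h5⟩)
        (⟨i', s', q', t', f', rfl, h1', h2', h3', h4', h5'⟩ | ⟨s', rfl, h4', h5'⟩)
      · obtain ⟨-, -, ⟨T1, w1, -, h6, -⟩, -⟩ := hall i q t f h1 h2 h3
        obtain ⟨-, -, ⟨T2, w2, -, h6', -⟩, -⟩ := hall i' q' t' f' h1' h2' h3'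
        rcases hr.total i i' h1 h1' with h7 | rfl | h7
        · exact absurd (InjF.mem h6.2.2.2.2 h4).1 (h5' i q t f h1 h7 h3)
        · obtain ⟨rfl, h8⟩ := op_inj (hKu i h1 h2 _ _ h3 h3')
          obtain ⟨rfl, rfl⟩ := op_inj h8
          rw [h6.2.2.2.2.2.2.2.1 x s s' h4 h4']
        · exact absurd (InjF.mem h6'.2.2.2.2 h4').1 (h5 i' q' t' f' h1' h7 h3')
      · obtain ⟨-, -, ⟨T1, w1, -, h6, -⟩, -⟩ := hall i q t f h1 h2 h3
        exact absurd (InjF.mem h6.2.2.2.2 h4).1 (h5' i q t f h1 h2 h3)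
      · obtain ⟨-, -, ⟨T1, w1, -, h6, -⟩, -⟩ := hall i' q' t' f' h1' h2' h3'
        exact absurd (InjF.mem h6.2.2.2.2 h4').1 (h5 i' q' t' f' h1' h2' h3')
      · rw [htp.2.2.2.2.2.2.2.1 x s s' h4 h4'])
    (by
      rintro x x' z (⟨i, s, q, t, f, rfl, h1, h2, h3, h4, h5⟩ | ⟨s, rfl, h4, h5⟩)
        (⟨i', s', q', t', f', h0, h1', h2', h3', h4', h5'⟩ | ⟨s', h0, h4', h5'⟩)
      · obtain ⟨rfl, rfl⟩ := op_inj h0
        obtain ⟨-, -, ⟨T1, w1, -, h6, -⟩, -⟩ := hall i q t f h1 h2 h3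
        obtain ⟨rfl, h8⟩ := op_inj (hKu i h1 h2 _ _ h3 h3')
        obtain ⟨rfl, rfl⟩ := op_inj h8
        exact h6.2.2.2.2.2.2.2.2 x x' s h4 h4'
      · obtain ⟨rfl, rfl⟩ := op_inj h0
        exact absurd h2 (hr.irrefl i h1)
      · obtain ⟨rfl, rfl⟩ := op_inj h0
        exact absurd h2' (hr.irrefl j hj)
      · obtain ⟨-, rfl⟩ := op_inj h0
        exact htp.2.2.2.2.2.2.2.2 x x' s h4 h4')
  obtain ⟨f1, hf1, -⟩ := injF_comp hf0 hfX
  have hqt : MSub q ht.elt := by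
    intro z hz
    rcases hq4 z hz with h | ⟨u, hu, h⟩
    · exact (ht' z).2 (Or.inl (htp.2.2.1 z h))
    · obtain ⟨i, c, h1, h2, h3⟩ := hprev u hu
      obtain ⟨q', t', f', h4⟩ := hcomp _ ((hg.2 _).2 ⟨i, h1, h2, h3⟩)
      obtain ⟨rfl, rfl⟩ := op_inj h4
      obtain ⟨-, -, ⟨T1, w1, -, h6, -⟩, -⟩ := hall i _ _ _ h1 h2 h3
      exact (ht' z).2 (Or.inr ⟨i, _, t', f', h1, h2, h3, h6.2.2.1 z h⟩)
  have hsm : Sm S q ht.elt f1 := by
    refine ⟨hq1.1, ht.isSet, hqt, fun x y hx hy => ?_, hf1⟩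
    rcases (ht' x).1 hx with h | ⟨i, q, t, f, h1, h2, h3, h4⟩
    · exact (ht' y).2 (Or.inl (htp.2.2.2.1 x y h hy))
    · obtain ⟨-, -, ⟨T1, w1, -, h6, -⟩, -⟩ := hall i _ _ _ h1 h2 h3
      exact (ht' y).2 (Or.inr ⟨i, q, t, f, h1, h2, h3, h6.2.2.2.1 x y h4 hy⟩)
  obtain ⟨q', t', f', hq', hqq', hsm', hrd'⟩ := hgd q ht.elt f1 hq1 hq2 hsm j hj
  -- the urelements before stage `j` and the new block
  have hφF : ∀ i s u, Mem (op (op i s) u) φ → Mem u F := fun i s u h => (InjF.mem hφ h).2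
  have hw0 := small_sep (S := {u | Mem u E ∨ ∃ i s, Mem i a ∧ Mem (op i j) r ∧
    Mem (op (op i s) u) φ}) (D.or (D.memf (DF.var _) (DF.const _)) (D.ex (D.ex (D.and
      (D.memf (DF.var _) (DF.const _)) (D.and (D.memf (DF.op (DF.var _) (DF.const _))
      (DF.const _)) (D.memf (DF.op (DF.op (DF.var _) (DF.var _)) (DF.var _)) (DF.const _))))))) 
    (sm_union E F).elt
  have hw0' : ∀ u, Mem u hw0.elt ↔ Mem u E ∨ ∃ i s, Mem i a ∧ Mem (op i j) r ∧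
      Mem (op (op i s) u) φ := fun u => hw0.mem.trans ⟨fun h => h.2, fun h =>
    ⟨(sm_union E F).mem.2 (h.imp id fun ⟨i, s, _, _, h3⟩ => hφF i s u h3), h⟩⟩
  have hw0u : Ur hw0.elt := ⟨hw0.isSet, fun u hu => (ur_union hE hF).2 u (hw0.mem.1 hu).1⟩
  have hFj := small_sep (S := {u | ∃ s, Mem (op (op j s) u) φ}) (D.ex (D.memf
    (DF.op (DF.op (DF.const _) (DF.var _)) (DF.var _)) (DF.const _))) F
  have hFj' : ∀ u, Mem u hFj.elt ↔ ∃ s, Mem (op (op j s) u) φ := fun u => hFj.mem.trans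
    ⟨fun h => h.2, fun ⟨s, h⟩ => ⟨hφF j s u h, s, h⟩⟩
  have hFju : Ur hFj.elt := ⟨hFj.isSet, fun u hu => hF.2 u (hFj.mem.1 hu).1⟩
  have hw := sm_union hw0.elt hFj.elt
  have hwE : Ej r a E φ j hw.elt := by
    refine ⟨hw.isSet, fun u => hw.mem.trans ?_⟩
    constructor
    · rintro (h | h)
      · rcases (hw0' u).1 h with h1 | ⟨i, s, h1, h2, h3⟩
        · exact Or.inl h1
        · exact Or.inr ⟨i, s, h1, Or.inl h2, h3⟩
      · obtain ⟨s, hs⟩ := (hFj' u).1 h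
        exact Or.inr ⟨j, s, hj, Or.inr rfl, hs⟩
    · rintro (h | ⟨i, s, h1, h2 | rfl, h3⟩)
      · exact Or.inl ((hw0' u).2 (Or.inl h))
      · exact Or.inl ((hw0' u).2 (Or.inr ⟨i, s, h1, h2, h3⟩))
      · exact Or.inr ((hFj' u).2 ⟨s, h3⟩)
  have hdisj : ∀ u, Mem u hFj.elt → ¬ Mem u hw0.elt := by
    intro u hu hu'
    obtain ⟨s, hs⟩ := (hFj' u).1 hu
    rcases (hw0' u).1 hu' with h | ⟨i, s', h1, h2, h3⟩
    · exact hFE u (hφF j s u hs) h
    · obtain ⟨rfl, -⟩ := op_inj (hφ.2.2.2.2 _ _ _ hs h3)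
      exact hr.irrefl j hj h2
  have hEw0 : MSub E hw0.elt := fun u hu => (hw0' u).2 (Or.inl hu)
  have htw0 : Over hw0.elt ht.elt := over_of hw0u ht.isSet fun x hx => by
    rcases (ht' x).1 hx with h | ⟨i, q, t, f, h1, h2, h3, h4⟩
    · exact Over.mono hE hw0u hEw0 x (htpE.mem hE h)
    · obtain ⟨-, -, ⟨T1, w1, -, -, h6, h7⟩, -⟩ := hall i _ _ _ h1 h2 h3
      have h8 : MSub w1 hw0.elt := by
        intro u hu
        rcases (h6.2 u).1 hu with h9 | ⟨k, s, h9, h10, h11⟩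
        · exact hEw0 u h9
        · refine (hw0' u).2 (Or.inr ⟨k, s, h9, ?_, h11⟩)
          rcases h10 with h12 | rfl
          · exact hr.trans k i j h9 h1 hj h12 h2
          · exact h2
      have h9 : Ur w1 := ⟨h6.1, fun u hu => hw0u.2 u (h8 u hu)⟩
      exact Over.mono h9 hw0u h8 x (h7.mem h9 h4)
  have hqw0 : Over hw0.elt q := over_of hw0u hq1.1 fun z hz => htw0.mem hw0u (hqt z hz)
  -- the map moving the new urelements into the new block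
  obtain ⟨m, hm, hm'⟩ := exists_injF (M := M) (A := t') (B := hFj.elt)
    (K := fun x y => ∃ s, Mem (op x s) f' ∧ Mem (op (op j s) y) φ)
    (D.ex (D.and (D.memf (DF.op (DF.var _) (DF.var _)) (DF.const _))
      (D.memf (DF.op (DF.op (DF.const _) (DF.var _)) (DF.var _)) (DF.const _))))
    (by
      rintro x y ⟨s, h1, h2⟩
      exact ⟨(InjF.mem hsm'.2.2.2.2 h1).1, (hFj' y).2 ⟨s, h2⟩⟩)
    (by
      intro x hx
      obtain ⟨s, hs⟩ := hsm'.2.2.2.2.2.2.1 x hx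
      obtain ⟨y, hy⟩ := hφ.2.2.1 (op j s) ((small_prod _ _).mem.2 ⟨j, s, hj,
        hTU s (InjF.mem hsm'.2.2.2.2 hs).2, rfl⟩)
      exact ⟨y, s, hs, hy⟩)
    (by
      rintro x y y' ⟨s, h1, h2⟩ ⟨s', h1', h2'⟩
      obtain rfl := hsm'.2.2.2.2.2.2.2.1 x s s' h1 h1'
      exact hφ.2.2.2.1 _ _ _ h2 h2')
    (by
      rintro x x' y ⟨s, h1, h2⟩ ⟨s', h1', h2'⟩
      obtain ⟨-, rfl⟩ := op_inj (hφ.2.2.2.2 _ _ _ h2 h2')
      exact hsm'.2.2.2.2.2.2.2.2 x x' s h1 h1')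
  have h1 := small_sep (S := {u | ¬ IsSet u}) (D.not (D.isSetf (DF.var _))) t'
  have hQ0 : Ur h1.elt := ⟨h1.isSet, fun u hu => (h1.mem.1 hu).2⟩
  obtain ⟨π, π', hπ, hπ', hfix, hfix', hmv⟩ := exists_move hpl (m := m) hw0u hQ0 hFju hdisj
    (fun u hu _ => by
      obtain ⟨y, hy⟩ := hm.2.2.1 u (h1.mem.1 hu).1
      exact ⟨y, (InjF.mem hm hy).2, hy⟩) hm.2.2.2.1 hm.2.2.2.2
  have hs' : Supp hw0.elt Φ := Supp.mono hE hw0u hEw0 hs
  have hTw := over_em hw0u hT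
  have hjw : Over hw0.elt j := Over.mono hE hw0u hEw0 j (haE.mem hE hj)
  have e1 : π' (π T) = T := by rw [hfix T hTw, hfix' T hTw]
  have e2 : π' (π j) = j := by rw [hfix j hjw, hfix' j hjw]
  have e3 : π' (π q) = q := by rw [hfix q hqw0, hfix' q hqw0]
  have hsm2 : Sm T (π' (π q')) (π' (π t')) (π' (π f')) := by
    have := Aut.sm hπ' (Aut.sm hπ hsm')
    rwa [e1] at this
  have htQ : Over h1.elt t' := over_of hQ0 hsm'.2.1 fun y hy => over_of_trans hQ0 hsm'.2.2.2.1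
    (fun u h2 h3 => h1.mem.2 ⟨h2, h3⟩) y hy
  have hqq2 : MSub q (π' (π q')) := by
    have := hπ'.sub (hπ.sub hqq')
    rwa [e3] at this
  have hrd2 : Rd Φ j (π' (π q')) := by
    have := rd_aut hs' hπ' hfix' (rd_aut hs' hπ hfix hrd')
    rwa [e2] at this
  have hover := hmv t' htQ
  refine ⟨op (π' (π q')) (op (π' (π t')) (π' (π f'))), hV _ _ _ (hsm2.mono hTU) ?_, _, _, _, T,
    hw.elt, rfl, hπ'.cond (hπ.cond hq'), fun z hz => hqq2 z (hq2 z hz), ?_, (hTu T).2 rfl, hsm2,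
    hwE, hover, hrd2⟩
  · intro u hu hu'
    rcases (sm_union _ _).mem.1 (Over.ur_mem (ur_union hw0u hFju) hover hu hu') with h | h
    · exact (hw0.mem.1 h).1
    · exact (sm_union _ _).mem.2 (Or.inr (hFj.mem.1 h).1)
  · rintro z q'' c hz rfl x hx
    exact hqq2 x (hq3 q'' ((hgq q'').2 ⟨_, hz, c, rfl⟩) x hx)

end Pool.Agent.UR78
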