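import Pool.Agent.UR78.Dist

/-!
# The distributivity theorems
-/

namespace Pool.Agent.UR78

open FirstOrder FirstOrder.Language
open Pool.Agent.Helper672.ZFA Pool.Agent.H839R3

universe u

variable {M : Type u} [L.Structure M] [hM : ZM M]

/-- Distributivity, with Collection and Plenitude. -/
theorem dist_plenty (hc : Coll M) (hpl : Plenty M) {Φ : M → M → M → Prop} (hΦ : Nm Φ) {p a : M}
    (hp : Cond p) : ∃ q, Cond q ∧ MSub p q ∧ ∀ x, Mem x a → Rd Φ x q := by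
  obtain ⟨E1, hE1, hs1⟩ := hΦ.sym
  obtain ⟨E2, hE2, hE2'⟩ := exists_over (up a p)
  have hE : Ur (sm_union E1 E2).elt := ur_union hE1 hE2
  set E := (sm_union E1 E2).elt with hEdef
  have hs : Supp E Φ := Supp.mono hE1 hE (fun z hz => (sm_union _ _).mem.2 (Or.inl hz)) hs1
  have hE3 : Over E (up a p) := Over.mono hE2 hE (fun z hz => (sm_union _ _).mem.2
    (Or.inr hz)) _ hE2'
  have haE : Over E a := hE3.mem hE (mem_up.2 (Or.inl rfl))
  have hpE : Over E p := hE3.mem hE (mem_up.2 (Or.inr rfl))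
  obtain ⟨r, hr⟩ := exists_WO a
  obtain ⟨tp, htp1, htp2⟩ := hpE.lev hE
  obtain ⟨S0, hS0, fp, hfp⟩ := exists_pure_level tp
  have htp : Sm S0 p tp fp := ⟨hp.1, htp1.1, htp2, fun x y hx hy => htp1.trans hE hx hy, hfp⟩
  -- the sizes
  obtain ⟨H, -, -, hH⟩ := hr.recursion (F := fun _ g T => Lev (em M) T ∧ NS Φ p a S0 g T ∧
      ∀ T', Mem T' T → Lev (em M) T' → ¬ NS Φ p a S0 g T')
    (D.and (D.lev (DF.const _) (DF.var _)) (D.and (D.ns hΦ _ _ _ (DF.var _) (DF.var _)) (D.all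
      (D.imp (D.memf (DF.var _) (DF.var _)) (D.imp (D.lev (DF.const _) (DF.var _)) (D.not
      (D.ns hΦ _ _ _ (DF.var _) (DF.var _)))))))) (by
    intro j g _
    obtain ⟨S, h1, h2⟩ := exists_ab a S0 g
    obtain ⟨T, h3, h4⟩ := exists_gd hc hpl (p := p) hΦ hE hs haE h1
    exact Lev.least ur_em (S := fun T => NS Φ p a S0 g T) (D.ns hΦ _ _ _ (DF.const _) (DF.var _))
      h3 ⟨S, h1, h2, h4⟩)
  obtain ⟨b, -, hb⟩ := hM.repl (fun j t => Mem (op j t) H) (D.memf (DF.op (DF.var _) (DF.var _))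
    (DF.const _)) a fun j hj => by
      obtain ⟨t, g, -, -, h⟩ := hH j hj
      exact ⟨t, (h t).2 rfl, fun t' ht' => (h t').1 ht'⟩
  obtain ⟨U, -, hU⟩ := hM.union b
  obtain ⟨F, hF, hFE, φ, hφ⟩ := exists_ur_big hpl E (small_prod a U).elt
  obtain ⟨Qs, hQs⟩ := exists_small_set U (sm_union E F).elt
  obtain ⟨UQ, -, hUQ⟩ := hM.union Qs
  set V := (small_prod Qs (small_prod Qs (small_power (small_prod UQ U).elt).elt).elt).elt
    with hVdef
  obtain ⟨wV, hwV⟩ := exists_WO V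
  have hH' : ∀ j, Mem j a → ∃ T g, Lev (em M) T ∧ MSub T U ∧ Prev r a H j g ∧
      NS Φ p a S0 g T ∧ ∀ T', Mem (op j T') H ↔ T' = T := by
    intro j hj
    obtain ⟨T, g, h1, h2, h3⟩ := hH j hj
    exact ⟨T, g, h2.1, fun z hz => (hU z).2 ⟨T, (hb T).2 ⟨j, hj, (h3 T).2 rfl⟩, hz⟩, h1, h2.2.1,
      h3⟩
  have hV : ∀ q t f, Sm U q t f → (∀ u, Mem u t → ¬ IsSet u → Mem u (sm_union E F).elt) →
      Mem (op q (op t f)) V := by
    intro q t f h1 h2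
    have h3 : Mem q Qs := hQs q t f h1 h2
    have h4 : Mem t Qs := hQs t t f ⟨h1.2.1, h1.2.1, fun _ => id, h1.2.2.2⟩ h2
    refine (small_prod _ _).mem.2 ⟨_, _, h3, (small_prod _ _).mem.2 ⟨_, _, h4,
      (small_power _).mem.2 ⟨h1.2.2.2.2.1, fun z hz => ?_⟩, rfl⟩, rfl⟩
    obtain ⟨x, y, h5, h6, h7⟩ := h1.2.2.2.2.2.1 z hz
    exact (small_prod _ _).mem.2 ⟨x, y, (hUQ x).2 ⟨t, h4, h5⟩, h6, h7⟩
  -- the conditions
  obtain ⟨K, -, -, hK⟩ := hr.recursion (F := fun j g y =>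
      (Cj Φ p r a E φ H V j g y ∧ ∀ y', Cj Φ p r a E φ H V j g y' → ¬ Mem (op y' y) wV) ∨
      (¬ (∃ y, Cj Φ p r a E φ H V j g y) ∧ y = E))
    (D.or (D.and (D.cj hΦ _ _ _ _ _ _ _ (DF.var _) (DF.var _) (DF.var _)) (D.all (D.imp
      (D.cj hΦ _ _ _ _ _ _ _ (DF.var _) (DF.var _) (DF.var _)) (D.not (D.memf (DF.op (DF.var _)
      (DF.var _)) (DF.const _)))))) (D.and (D.not (D.ex (D.cj hΦ _ _ _ _ _ _ _ (DF.var _)
      (DF.var _) (DF.var _)))) (D.eqf (DF.var _) (DF.const _)))) (by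
    intro j g _
    by_cases h : ∃ y, Cj Φ p r a E φ H V j g y
    · obtain ⟨y, h1⟩ := h
      obtain ⟨z, h2, h3, h4⟩ := hwV.least (fun y => Cj Φ p r a E φ H V j g y)
        (D.cj hΦ _ _ _ _ _ _ _ (DF.const _) (DF.const _) (DF.var _)) ⟨y, h1.1, h1⟩
      refine ⟨z, Or.inl ⟨h3, fun y' h5 => h4 y' h5.1 h5⟩, ?_⟩
      rintro y' (⟨h5, h6⟩ | ⟨h5, -⟩)
      · rcases hwV.total z y' h2 h5.1 with h7 | h7 | h7
        · exact absurd h7 (h6 z h3)
        · exact h7.symm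
        · exact absurd h7 (h4 y' h5.1 h5)
      · exact absurd ⟨y, h1⟩ h5
    · refine ⟨E, Or.inr ⟨h, rfl⟩, ?_⟩
      rintro y' (⟨h5, -⟩ | ⟨-, h5⟩)
      · exact absurd ⟨y', h5⟩ h
      · exact h5)
  have st : Stage Φ p r a E φ H V K U F S0 tp fp :=
    ⟨hr, hE, hF, hFE, hφ, haE, hpE, hp, hH', ⟨htp, htp1.over⟩, hV⟩
  have key : ∀ j, Mem j a → ∀ y, Mem (op j y) K → ∃ g, Prev r a K j g ∧
      Cj Φ p r a E φ H V j g y := by
    refine hr.ind (fun j => ∀ y, Mem (op j y) K → ∃ g, Prev r a K j g ∧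
      Cj Φ p r a E φ H V j g y) (D.all (D.imp (D.memf (DF.op (DF.var _) (DF.var _)) (DF.const _))
      (D.ex (D.and (D.prev _ _ _ (DF.var _) (DF.var _)) (D.cj hΦ _ _ _ _ _ _ _ (DF.var _)
      (DF.var _) (DF.var _)))))) ?_
    intro j hj ih y hy
    obtain ⟨y0, g, hg, hF', h1⟩ := hK j hj
    obtain rfl := (h1 y).1 hy
    refine ⟨g, hg, ?_⟩
    rcases hF' with h2 | ⟨h2, -⟩
    · exact h2.1
    · exact absurd (exists_cj hpl hs st hj hg (fun i hi _ z z' hz hz' => by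
        obtain ⟨w, -, -, -, h3⟩ := hK i hi
        rw [(h3 z).1 hz, (h3 z').1 hz']) (fun i hi _ => by
        obtain ⟨w, -, -, -, h3⟩ := hK i hi
        exact ⟨w, (h3 w).2 rfl⟩) (fun i hi hij z hz => ih i hi hij z hz)) h2
  -- the union
  have hkey : ∀ j, Mem j a → ∃ q c, Mem (op j (op q c)) K ∧ Cond q ∧ MSub p q ∧ Rd Φ j q ∧
      ∀ i q' c', Mem i a → Mem (op i j) r → Mem (op i (op q' c')) K → MSub q' q := by
    intro j hj
    obtain ⟨y, g, -, -, h1⟩ := hK j hj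
    obtain ⟨g', h2, -, q, t, f, T, w, rfl, h3, h4, h5, -, -, -, -, h6⟩ := key j hj y ((h1 y).2 rfl)
    exact ⟨q, _, (h1 _).2 rfl, h3, h4, h6, fun i q' c' h7 h8 h9 => h5 _ q' c' ((h2.2 _).2
      ⟨i, h7, h8, h9⟩) rfl⟩
  have hKu : ∀ j, Mem j a → ∀ q c q' c', Mem (op j (op q c)) K → Mem (op j (op q' c')) K →
      q = q' := by
    intro j hj q c q' c' h1 h2
    obtain ⟨y, g, -, -, h3⟩ := hK j hj
    exact (op_inj (((h3 _).1 h1).trans ((h3 _).1 h2).symm)).1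
  obtain ⟨c, -, hc'⟩ := hM.repl (fun j q => ∃ c, Mem (op j (op q c)) K) (D.ex (D.memf
    (DF.op (DF.var _) (DF.op (DF.var _) (DF.var _))) (DF.const _))) a fun j hj => by
      obtain ⟨q, c, h1, -⟩ := hkey j hj
      refine ⟨q, ⟨c, h1⟩, ?_⟩
      rintro q' ⟨c', h2⟩
      exact hKu j hj _ _ _ _ h2 h1
  have hcc : ∀ u, Mem u c → ∃ j c', Mem j a ∧ Mem (op j (op u c')) K ∧ Cond u ∧ MSub p u ∧
      ∀ i q' c', Mem i a → Mem (op i j) r → Mem (op i (op q' c')) K → MSub q' u := by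
    intro u hu
    obtain ⟨j, hj, c', h1⟩ := (hc' u).1 hu
    obtain ⟨q, c2, h2, h3, h4, -, h5⟩ := hkey j hj
    obtain rfl := hKu j hj _ _ _ _ h1 h2
    exact ⟨j, c', hj, h1, h3, h4, h5⟩
  obtain ⟨q, hq1, hq2, hq3, -⟩ := exists_chain (p := p) (g := c) hp
    (fun u hu => by
      obtain ⟨j, c', -, -, h, -⟩ := hcc u hu
      exact h)
    (fun u hu => by
      obtain ⟨j, c', -, -, -, h, -⟩ := hcc u hu
      exact h)
    (fun u v hu hv => by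
      obtain ⟨i, c1, h1, h2, -, -, h3⟩ := hcc u hu
      obtain ⟨k, c2, h1', h2', -, -, h3'⟩ := hcc v hv
      rcases hr.total i k h1 h1' with h5 | rfl | h5
      · exact Or.inl (h3' i _ _ h1 h5 h2)
      · obtain rfl := hKu i h1 _ _ _ _ h2 h2'
        exact Or.inl fun _ => id
      · exact Or.inr (h3 k _ _ h1' h5 h2'))
  refine ⟨q, hq1, hq2, fun j hj => ?_⟩
  obtain ⟨q', c', h1, -, -, h2, -⟩ := hkey j hj
  exact h2.mono hΦ (hq3 q' ((hc' q').2 ⟨j, hj, c', h1⟩)) hq1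

end Pool.Agent.UR78
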