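import Pool.Agent.UR78.Dist2

/-!
# Distributivity when the urelements form a set
-/

namespace Pool.Agent.UR78

open FirstOrder FirstOrder.Language
open Pool.Agent.Helper672.ZFA Pool.Agent.H839R3

universe u

variable {M : Type u} [L.Structure M] [hM : ZM M]

theorem exists_NR_set {Φ : M → M → M → Prop} (hΦ : Nm Φ) {E : M} (hE : Ur E)
    (hall : ∀ x : M, Over E x) (p a g : M) :
    ∃ t, Lev E t ∧ NR Φ p a g t := by
  obtain ⟨w, hw0, hw⟩ := hM.union g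
  have hwE : Over E w := hall w
  have hs1 := sm_union p w
  obtain ⟨t2, h1, h2⟩ := hwE.lev hE
  obtain ⟨t1, h3, h4⟩ := lev_coll hE (small_prod a (small_power hs1.elt).elt).elt
    (P := fun z t => ∀ x q, z = op x q → Mem x a → Cond q → MSub p q →
      (∀ z, Mem z q → Mem z hs1.elt) → ∃ q', Mem q' t ∧ Cond q' ∧ MSub q q' ∧ Rd Φ x q')
    (D.all (D.all (D.imp (D.eqf (DF.var _) (DF.op (DF.var _) (DF.var _))) (D.imp
      (D.memf (DF.var _) (DF.const _)) (D.imp (D.cond (DF.var _)) (D.imp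
      (D.msub (DF.const _) (DF.var _)) (D.imp (D.all (D.imp (D.memf (DF.var _) (DF.var _))
        (D.memf (DF.var _) (DF.const _)))) (D.ex (D.and (D.memf (DF.var _) (DF.var _)) (D.and
        (D.cond (DF.var _)) (D.and (D.msub (DF.var _) (DF.var _)) (D.rd hΦ (DF.var _)
        (DF.var _)))))))))))))
    (fun z t t' h3 h4 x q h5 h6 h7 h8 h9 => by
      obtain ⟨q', h10, h11⟩ := h3 x q h5 h6 h7 h8 h9
      exact ⟨q', h4 _ h10, h11⟩)
    (fun z hz => by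
      obtain ⟨x, q, h5, h6, rfl⟩ := (small_prod _ _).mem.1 hz
      by_cases h7 : Cond q ∧ MSub p q
      · obtain ⟨q', h10, h11, h13⟩ := rd_dense (Φ := Φ) x h7.1
        have h12 := hall q'
        obtain ⟨t, h14, h15⟩ := h12.lev_mem hE
        refine ⟨t, h14, fun x' q'' h16 _ _ _ _ => ?_⟩
        obtain ⟨rfl, rfl⟩ := op_inj h16
        exact ⟨q', h15, h10, h11, h13⟩
      · refine ⟨E, lev_self hE, fun x' q'' h16 _ h17 h18 _ => ?_⟩
        obtain ⟨rfl, rfl⟩ := op_inj h16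
        exact absurd ⟨h17, h18⟩ h7)
  obtain ⟨t, h5, h6, h7⟩ := h3.join hE h1
  refine ⟨t, h5, fun u hu z hz => h7 z (h2 z ((hw z).2 ⟨u, hu, hz⟩)), fun x q h8 h9 h10 h11 => ?_⟩
  have h12 : ∀ z, Mem z q → Mem z hs1.elt := by
    intro z hz
    rcases h11 z hz with h | ⟨u, h, h'⟩
    · exact hs1.mem.2 (Or.inl h)
    · exact hs1.mem.2 (Or.inr ((hw z).2 ⟨u, h, h'⟩))
  obtain ⟨q', h13, h14, h15, h16⟩ := h4 (op x q) ((small_prod _ _).mem.2 ⟨x, q, h8,
    (small_power _).mem.2 ⟨h9.1, h12⟩, rfl⟩) x q rfl h8 h9 h10 h12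
  exact ⟨q', h6 _ h13, h14, h15, h16⟩

/-- Distributivity if the urelements form a set. -/
theorem dist_set {Φ : M → M → M → Prop} (hΦ : Nm Φ) {p a E : M} (hp : Cond p) (hE : Ur E)
    (hall : ∀ x : M, Over E x) :
    ∃ q, Cond q ∧ MSub p q ∧ ∀ x, Mem x a → Rd Φ x q := by
  obtain ⟨r, hr⟩ := exists_WO a
  -- the sequence of levels
  obtain ⟨H, -, hH1, hH⟩ := hr.recursion (F := fun _ g t =>
      (Lev E t ∧ NR Φ p a g t ∧ ∀ q, Mem q t → Lev E q → ¬ NR Φ p a g q) ∨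
      (¬ (∃ t, Lev E t ∧ NR Φ p a g t) ∧ t = E))
    (D.or (D.and (D.lev (DF.const _) (DF.var _)) (D.and (D.nr hΦ (DF.const _) (DF.const _)
      (DF.var _) (DF.var _)) (D.all (D.imp (D.memf (DF.var _) (DF.var _)) (D.imp
      (D.lev (DF.const _) (DF.var _)) (D.not (D.nr hΦ (DF.const _) (DF.const _)
      (DF.var _) (DF.var _)))))))) (D.and (D.not (D.ex (D.and (D.lev (DF.const _) (DF.var _))
      (D.nr hΦ (DF.const _) (DF.const _) (DF.var _) (DF.var _))))) (D.eqf (DF.var _)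
      (DF.const _)))) (by
    intro j g _
    by_cases h : ∃ t, Lev E t ∧ NR Φ p a g t
    · obtain ⟨t, h1, h2⟩ := h
      obtain ⟨s, h3, h4⟩ := Lev.least hE (S := fun t => NR Φ p a g t)
        (D.nr hΦ (DF.const _) (DF.const _) (DF.const _) (DF.var _)) h1 h2
      refine ⟨s, Or.inl h3, ?_⟩
      rintro y (h5 | ⟨h5, -⟩)
      · exact h4 y h5
      · exact absurd ⟨t, h1, h2⟩ h5
    · refine ⟨E, Or.inr ⟨h, rfl⟩, ?_⟩
      rintro y (h5 | ⟨-, h5⟩)
      · exact absurd ⟨y, h5.1, h5.2.1⟩ h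
      · exact h5)
  have v1 : ∀ j, Mem j a → ∀ t, Mem (op j t) H → Lev E t := by
    intro j hj t ht
    obtain ⟨y, g, -, h2, h3⟩ := hH j hj
    obtain rfl := (h3 t).1 ht
    rcases h2 with h4 | ⟨-, rfl⟩
    · exact h4.1
    · exact lev_self hE
  have v2 : ∀ j, Mem j a → ∃ t g, Prev r a H j g ∧ NR Φ p a g t ∧
      ∀ t', Mem (op j t') H ↔ t' = t := by
    intro j hj
    obtain ⟨y, g, h1, h2, h3⟩ := hH j hj
    refine ⟨y, g, h1, ?_, h3⟩
    rcases h2 with h4 | ⟨h4, -⟩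
    · exact h4.2.1
    · exact absurd (exists_NR_set hΦ hE hall p a g) h4
  -- a well-ordering of all the levels
  obtain ⟨b, -, hb⟩ := hM.repl (fun j t => Mem (op j t) H) (D.memf (DF.op (DF.var _) (DF.var _))
    (DF.const _)) a fun j hj => by
      obtain ⟨t, g, -, -, h⟩ := v2 j hj
      exact ⟨t, (h t).2 rfl, fun t' ht' => (h t').1 ht'⟩
  obtain ⟨V, -, hV⟩ := hM.union b
  obtain ⟨w, hw⟩ := exists_WO V
  have hCdV : ∀ j g y, Mem j a → Cd Φ p H j g y → Mem y V := by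
    rintro j g y hj ⟨⟨s, h1, h2⟩, -⟩
    exact (hV y).2 ⟨s, (hb s).2 ⟨j, hj, h1⟩, h2⟩
  obtain ⟨K, -, hK1, hK⟩ := hr.recursion (F := fun j g y =>
      (Cd Φ p H j g y ∧ ∀ y', Cd Φ p H j g y' → ¬ Mem (op y' y) w) ∨
      (¬ (∃ y, Cd Φ p H j g y) ∧ y = E))
    (D.or (D.and (D.cd hΦ (DF.var _) (DF.var _) (DF.var _)) (D.all (D.imp
      (D.cd hΦ (DF.var _) (DF.var _) (DF.var _)) (D.not (D.memf (DF.op (DF.var _) (DF.var _))
      (DF.const _)))))) (D.and (D.not (D.ex (D.cd hΦ (DF.var _) (DF.var _) (DF.var _))))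
      (D.eqf (DF.var _) (DF.const _)))) (by
    intro j g hj
    by_cases h : ∃ y, Cd Φ p H j g y
    · obtain ⟨y, h1⟩ := h
      obtain ⟨z, h2, h3, h4⟩ := hw.least (fun y => Cd Φ p H j g y) (D.cd hΦ (DF.const _)
        (DF.const _) (DF.var _)) ⟨y, hCdV j g y hj h1, h1⟩
      refine ⟨z, Or.inl ⟨h3, fun y' h5 => h4 y' (hCdV j g y' hj h5) h5⟩, ?_⟩
      rintro y' (⟨h5, h6⟩ | ⟨h5, -⟩)
      · rcases hw.total z y' h2 (hCdV j g y' hj h5) with h7 | h7 | h7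
        · exact absurd h7 (h6 z h3)
        · exact h7.symm
        · exact absurd h7 (h4 y' (hCdV j g y' hj h5) h5)
      · exact absurd ⟨y, h1⟩ h5
    · refine ⟨E, Or.inr ⟨h, rfl⟩, ?_⟩
      rintro y' (⟨h5, -⟩ | ⟨-, h5⟩)
      · exact absurd ⟨y', h5⟩ h
      · exact h5)
  -- good values
  have key : ∀ j, Mem j a → ∀ y, Mem (op j y) K → (∃ s, Mem (op j s) H ∧ Mem y s) ∧ Cond y ∧
      MSub p y ∧ (∀ i z, Mem i a → Mem (op i j) r → Mem (op i z) K → MSub z y) ∧ Rd Φ j y := by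
    refine hr.ind (fun j => ∀ y, Mem (op j y) K → (∃ s, Mem (op j s) H ∧ Mem y s) ∧ Cond y ∧
      MSub p y ∧ (∀ i z, Mem i a → Mem (op i j) r → Mem (op i z) K → MSub z y) ∧ Rd Φ j y)
      (D.all (D.imp (D.memf (DF.op (DF.var _) (DF.var _)) (DF.const _)) (D.and (D.ex (D.and
        (D.memf (DF.op (DF.var _) (DF.var _)) (DF.const _)) (D.memf (DF.var _) (DF.var _))))
        (D.and (D.cond (DF.var _)) (D.and (D.msub (DF.const _) (DF.var _)) (D.and (D.all (D.all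
          (D.imp (D.memf (DF.var _) (DF.const _)) (D.imp (D.memf (DF.op (DF.var _) (DF.var _))
          (DF.const _)) (D.imp (D.memf (DF.op (DF.var _) (DF.var _)) (DF.const _))
          (D.msub (DF.var _) (DF.var _))))))) (D.rd hΦ (DF.var _) (DF.var _)))))))) ?_
    intro j hj ih y hy
    obtain ⟨y0, g, hg, hF, h1⟩ := hK j hj
    obtain rfl := (h1 y).1 hy
    obtain ⟨t, g', hg', hN, h2⟩ := v2 j hj
    obtain ⟨q, hq1, hq2, hq3, hq4⟩ := exists_chain (p := p) (g := g) hp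
      (fun u hu => by
        obtain ⟨i, h3, h4, h5⟩ := (hg.2 u).1 hu
        exact (ih i h3 h4 u h5).2.1)
      (fun u hu => by
        obtain ⟨i, h3, h4, h5⟩ := (hg.2 u).1 hu
        exact (ih i h3 h4 u h5).2.2.1)
      (fun u v hu hv => by
        obtain ⟨i, h3, h4, h5⟩ := (hg.2 u).1 hu
        obtain ⟨k, h6, h7, h8⟩ := (hg.2 v).1 hv
        rcases hr.total i k h3 h6 with h9 | rfl | h9
        · exact Or.inl ((ih k h6 h7 v h8).2.2.2.1 i u h3 h9 h5)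
        · obtain ⟨z, g'', -, -, h10⟩ := hK i h3
          obtain rfl := (h10 u).1 h5
          obtain rfl := (h10 v).1 h8
          exact Or.inl fun _ => id
        · exact Or.inr ((ih i h3 h4 u h5).2.2.2.1 k v h6 h9 h8))
    have h3 : ∀ z, Mem z q → Mem z p ∨ ∃ w, Mem w g' ∧ Mem z w := by
      intro z hz
      rcases hq4 z hz with h | ⟨u, hu, h⟩
      · exact Or.inl h
      · obtain ⟨i, h3, h4, h5⟩ := (hg.2 u).1 hu
        obtain ⟨s, h6, h7⟩ := (ih i h3 h4 u h5).1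
        exact Or.inr ⟨s, (hg'.2 s).2 ⟨i, h3, h4, h6⟩, (v1 i h3 s h6).trans hE h7 h⟩
    obtain ⟨q', h4, h5, h6, h7⟩ := hN.2 j q hj hq1 hq2 h3
    have h8 : Cd Φ p H j g q' := ⟨⟨t, (h2 t).2 rfl, h4⟩, h5, fun z hz => h6 z (hq2 z hz),
      fun u hu z hz => h6 z (hq3 u hu z hz), h7⟩
    rcases hF with ⟨h9, -⟩ | ⟨h9, -⟩
    · refine ⟨h9.1, h9.2.1, h9.2.2.1, fun i z h10 h11 h12 => ?_, h9.2.2.2.2⟩
      exact h9.2.2.2.1 z ((hg.2 z).2 ⟨i, h10, h11, h12⟩)
    · exact absurd ⟨q', h8⟩ h9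
  -- the union
  obtain ⟨c, -, hc⟩ := hM.repl (fun j t => Mem (op j t) K) (D.memf (DF.op (DF.var _) (DF.var _))
    (DF.const _)) a fun j hj => by
      obtain ⟨t, g, -, -, h⟩ := hK j hj
      exact ⟨t, (h t).2 rfl, fun t' ht' => (h t').1 ht'⟩
  obtain ⟨q, hq1, hq2, hq3, -⟩ := exists_chain (p := p) (g := c) hp
      (fun u hu => by
        obtain ⟨i, h3, h5⟩ := (hc u).1 hu
        exact (key i h3 u h5).2.1)
      (fun u hu => by
        obtain ⟨i, h3, h5⟩ := (hc u).1 hu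
        exact (key i h3 u h5).2.2.1)
      (fun u v hu hv => by
        obtain ⟨i, h3, h5⟩ := (hc u).1 hu
        obtain ⟨k, h6, h8⟩ := (hc v).1 hv
        rcases hr.total i k h3 h6 with h9 | rfl | h9
        · exact Or.inl ((key k h6 v h8).2.2.2.1 i u h3 h9 h5)
        · obtain ⟨z, g'', -, -, h10⟩ := hK i h3
          obtain rfl := (h10 u).1 h5
          obtain rfl := (h10 v).1 h8
          exact Or.inl fun _ => id
        · exact Or.inr ((key i h3 u h5).2.2.2.1 k v h6 h9 h8))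
  refine ⟨q, hq1, hq2, fun j hj => ?_⟩
  obtain ⟨y, g, -, -, h1⟩ := hK j hj
  have h2 : Mem (op j y) K := (h1 y).2 rfl
  exact (key j hj y h2).2.2.2.2.mono hΦ (hq3 y ((hc y).2 ⟨j, hj, h2⟩)) hq1

/-- The urelements form a set, or there are sets of urelements of all sizes. -/
theorem dist_all (hc : Coll M) (h : (∃ a : M, ∀ u, ¬ IsSet u → Mem u a) ∨ Plenty M)
    {Φ : M → M → M → Prop} (hΦ : Nm Φ) {p a : M} (hp : Cond p) :
    ∃ q, Cond q ∧ MSub p q ∧ ∀ x, Mem x a → Rd Φ x q := by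
  rcases h with ⟨b, hb⟩ | h
  · have h1 := small_sep (S := {u | ¬ IsSet u}) (D.not (D.isSetf (DF.var _))) b
    have hE : Ur h1.elt := ⟨h1.isSet, fun u hu => (h1.mem.1 hu).2⟩
    refine dist_set hΦ hp hE ?_
    refine mem_ind (S := fun x => Over h1.elt x) (D.over (DF.const _) (DF.var _)) fun x ih => ?_
    by_cases hx : IsSet x
    · exact over_of hE hx ih
    · exact Or.inl ⟨hx, h1.mem.2 ⟨hb x hx, hx⟩⟩
  · exact dist_plenty hc h hΦ hp

end Pool.Agent.UR78
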