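import Pool.Agent.UR78.DistSet

/-!
# Generic classes and Collection
-/

namespace Pool.Agent.UR78

open FirstOrder FirstOrder.Language
open Pool.Agent.Helper672.ZFA Pool.Agent.H839R3

universe u

section

variable {M : Type u} [L.Structure M] [hM : ZM M]

/-- Generic classes that decide all values of relations on sets. -/
structure IsGen2 (g : Set M) : Prop extends IsGen g where
  col : ∀ (φ : LG.Formula ((Set.univ : Set M) ⊕ Fin 2)) (a : M), ∃ q ∈ g, ∀ x, Mem x a →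
    Rd (fun x y q => Force φ (pv ![x, y]) default q) x q

theorem exists_isGen2 [Countable M] (hc : Coll M)
    (hp : (∃ a : M, ∀ u, ¬ IsSet u → Mem u a) ∨ Plenty M) : ∃ g : Set M, IsGen2 g := by
  let ι : Type u := (Σ k n, BF M k n × (Fin k → M) × (Fin n → M)) ⊕
    (Σ k n, BF M k (n + 1) × (Fin k → M) × (Fin n → M)) ⊕ (M × M) ⊕ (M × M) ⊕
    (BF M 1 0 × M) ⊕ (BF M 2 0 × M)
  have : Countable ι := inferInstance
  let 𝒟 : ι → M → Prop := fun i => match i with
    | Sum.inl ⟨_, _, φ, v, xs⟩ => fun q =>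
      Force φ (pv v) xs q ∨ ∀ r, Cond r → MSub q r → ¬ Force φ (pv v) xs r
    | Sum.inr (Sum.inl ⟨_, _, φ, v, xs⟩) => fun q => (∀ x, Force φ (pv v) (Fin.snoc xs x) q) ∨
      ∃ x, ∀ r, Cond r → MSub q r → ¬ Force φ (pv v) (Fin.snoc xs x) r
    | Sum.inr (Sum.inr (Sum.inl (x, y))) => fun q => Mem (op x y) q ∨
      ∀ r, Cond r → MSub q r → ¬ Mem (op x y) r
    | Sum.inr (Sum.inr (Sum.inr (Sum.inl (x, y)))) => fun q => Mem y x → ∃ y', Mem (op x y') q
    | Sum.inr (Sum.inr (Sum.inr (Sum.inr (Sum.inl (φ, a))))) => fun q => ∀ x, Mem x a →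
      Rd (fun x y q => y = x ∧ Force φ (pv fun _ => x) default q) x q
    | Sum.inr (Sum.inr (Sum.inr (Sum.inr (Sum.inr (φ, a))))) => fun q =>
      ∀ x, Mem x a → Rd (fun x y q => Force φ (pv ![x, y]) default q) x q
  obtain ⟨g, h1, h2, h3, h4⟩ := exists_generic 𝒟 (by
    rintro (⟨k, n, φ, v, xs⟩ | ⟨k, n, φ, v, xs⟩ | ⟨x, y⟩ | ⟨x, y⟩ | ⟨φ, a⟩ | ⟨φ, a⟩) p hp'
    · exact dense_dec φ v xs p hp'
    · exact dense_all φ v xs p hp'
    · exact dense_pair x y p hp'
    · by_cases h : Mem y x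
      · obtain ⟨q, h1, h2, h3⟩ := dense_tot x y p h hp'
        exact ⟨q, h1, h2, fun _ => h3⟩
      · exact ⟨p, hp', fun _ => id, fun h' => absurd h' h⟩
    · exact dense_sep φ a p hp'
    · exact dist_all hc hp (Force.nm φ) hp')
  exact ⟨g, ⟨h1, h2, h3,
    fun k n φ v xs => h4 (Sum.inl ⟨k, n, φ, v, xs⟩),
    fun k n φ v xs => h4 (Sum.inr (Sum.inl ⟨k, n, φ, v, xs⟩)),
    fun x y => h4 (Sum.inr (Sum.inr (Sum.inl (x, y)))),
    fun x y h => by
      obtain ⟨q, h5, h6⟩ := h4 (Sum.inr (Sum.inr (Sum.inr (Sum.inl (x, y)))))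
      exact ⟨q, h5, h6 h⟩,
    fun φ a => h4 (Sum.inr (Sum.inr (Sum.inr (Sum.inr (Sum.inl (φ, a)))))),
    fun φ a => by
      obtain ⟨q, h5, h6⟩ := h4 (Sum.inr (Sum.inr (Sum.inr (Sum.inr (Sum.inr (φ, a))))))
      exact ⟨q, h5, Or.inl h6⟩⟩,
    fun φ a => h4 (Sum.inr (Sum.inr (Sum.inr (Sum.inr (Sum.inr (φ, a))))))⟩

theorem collection_of_gen {g : Set M} (hg : IsGen2 g) (hc : Coll M) (R : M → M → Prop)
    (hR : DG (gf g) (fun v : Fin 2 → M => R (v 0) (v 1))) (a : M)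
    (h : ∀ x, Mem x a → ∃ y, R x y) : ∃ b, ∀ x, Mem x a → ∃ y, Mem y b ∧ R x y := by
  letI := gStr (gf g)
  obtain ⟨φ, hφ⟩ := Set.definable_iff_exists_formula_sum.1 hR
  have hφ' : ∀ x y, R x y ↔ ∃ p ∈ g, Force φ (pv ![x, y]) default p := by
    intro x y
    have h1 : (![x, y] : Fin 2 → M) ∈ {x : Fin 2 → M | R (x 0) (x 1)} ↔
      (![x, y] : Fin 2 → M) ∈ {v | φ.Realize (Sum.elim (↑) v)} := by rw [← hφ]
    exact h1.trans (hg.truth φ ![x, y] default)
  obtain ⟨q, hq, h1⟩ := hg.col φ a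
  have h2 : ∀ x, Mem x a → ∃ y, Force φ (pv ![x, y]) default q := by
    intro x hx
    rcases h1 x hx with h3 | h3
    · exact h3
    · obtain ⟨y, hy⟩ := h x hx
      obtain ⟨p, h4, h5⟩ := (hφ' x y).1 hy
      obtain ⟨r, h6, h7, h8⟩ := hg.dir p h4 q hq
      exact absurd (Force.mono φ _ _ h5 h7) (h3 r (hg.cond r h6) h8 y)
  obtain ⟨b, hb⟩ := hc (fun x y => Force φ (pv ![x, y]) default q)
    (D.subst₃ (p := fun x y q => Force φ (pv ![x, y]) default q) (Force.nm φ).dfn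
      (DF.var _) (DF.var _) (DF.const _)) a h2
  refine ⟨b, fun x hx => ?_⟩
  obtain ⟨y, h3, h4⟩ := hb x hx
  exact ⟨y, h3, (hφ' x y).2 ⟨q, hq, h4⟩⟩

theorem classCollection_of_gen {g : Set M} (hg : IsGen2 g) (hc : Coll M) :
    ClassCollection M (Cl (gf g)) (clMem (gf g)) := by
  intro R w _ h
  obtain ⟨b, hb⟩ := collection_of_gen hg hc (fun x y => PairInClass (clMem (gf g)) R x y) (by
    have h1 : DG (gf g) (fun v : Fin 2 → M => ∃ p, p = op (v 0) (v 1) ∧ p ∈ R.1) :=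
      DG.ex (DG.and (DG.ofD (D.eqf (DF.var _) (DF.op (DF.var _) (DF.var _))))
        (DG.reindex R.2 fun _ => Sum.inr ()))
    refine Eq.mp (congrArg (DG (gf g)) ?_) h1
    funext v
    refine propext (exists_congr fun p => ?_)
    rw [isOrdPair_iff]
    exact Iff.rfl) w h
  by_cases hb' : IsSet b
  · exact ⟨b, hb', hb⟩
  · refine ⟨em M, ur_em.1, fun x hx => ?_⟩
    obtain ⟨y, hy, -⟩ := hb x hx
    exact absurd (hM.atoms _ _ hy) hb'

end

theorem coll_of_zfcu {M : Type u} [L.Structure M] (h : ZFCU M) : Coll M := by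
  intro R hR a ha
  by_cases hset : IsSet a
  · obtain ⟨v, -, hv⟩ := h.collection {q | R q.1 q.2} (definable₂_of_D hR) a hset ha
    exact ⟨v, hv⟩
  · exact ⟨a, fun x hx => absurd (h.atoms _ _ hx) hset⟩

/-- Countable models of `ZFCU` in which the urelements form a set or are plentiful expand. -/
theorem exists_classes2 {M : Type u} [L.Structure M] (h : ZFCU M) [Countable M]
    (hp : SetOrPlenty M) : ∃ (C : Type u) (η : M → C → Prop), GBUR M C η ∧
      ClassCollection M C η ∧ GlobalChoice M C η := by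
  haveI := h.toZFCUR.zm
  have hp' : (∃ a : M, ∀ u, ¬ IsSet u → Mem u a) ∨ Plenty M := by
    refine hp.imp id fun h1 k => ?_
    obtain ⟨B, hB, hB'⟩ := h1 k
    exact ⟨B, hB, fun ⟨f, hf⟩ => hB' ⟨f, injP_iff.2 hf⟩⟩
  obtain ⟨g, hg⟩ := exists_isGen2 (M := M) (coll_of_zfcu h) hp'
  exact ⟨_, _, gbur_of_gen hg.toIsGen h.toBaseAxioms, classCollection_of_gen hg (coll_of_zfcu h),
    globalChoice_of_gen hg.toIsGen⟩

section

variable {M : Type u} [L.Structure M] {S : L.ElementarySubstructure M}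

theorem zfcu_substructure (hM : ZFCU M) : ZFCU S where
  toZFCUR := zfcur_substructure hM.toZFCUR
  collection R hR := by
    obtain ⟨φ, hφ⟩ := exists_form hR
    have h1 : ∀ a : M, IsSet a → (∀ x, Mem x a → ∃ y,
        φ.Realize (Sum.elim (fun a => (a : M)) ![x, y])) →
        ∃ b, IsSet b ∧ ∀ x, Mem x a → ∃ y, Mem y b ∧
        φ.Realize (Sum.elim (fun a => (a : M)) ![x, y]) := by
      refine hM.collection {q | φ.Realize (Sum.elim (fun a => (a : M)) ![q.1, q.2])} ?_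
      refine Eq.mp (congrArg ((Set.univ : Set M).Definable L) ?_) (definable_form φ)
      ext v
      refine iff_of_eq (congrArg (fun w => φ.Realize (Sum.elim (fun a => (a : M)) w)) ?_)
      funext i
      fin_cases i <;> rfl
    have h2 : ∀ a : S, IsSet a → (∀ x, Mem x a → ∃ y,
        φ.Realize (Sum.elim id ![x, y])) →
        ∃ b, IsSet b ∧ ∀ x, Mem x a → ∃ y, Mem y b ∧
        φ.Realize (Sum.elim id ![x, y]) := by
      refine TR.transfer (S := S) ?_ h1
      exact TR.all (TR.imp (TR.isSet _) (TR.imp (TR.all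
        (TR.imp (TR.mem _ _) (TR.ex (TR.form₂ φ _ _)))) (TR.ex (TR.and (TR.isSet _) (TR.all
        (TR.imp (TR.mem _ _) (TR.ex (TR.and (TR.mem _ _) (TR.form₂ φ _ _)))))))))
    have h3 : ∀ x y : S, (x, y) ∈ R ↔ φ.Realize (Sum.elim id ![x, y]) := fun x y => hφ ![x, y]
    intro a ha h
    obtain ⟨b, h4, h5⟩ := h2 a ha fun x hx => by
      obtain ⟨y, h6⟩ := h x hx
      exact ⟨y, (h3 x y).1 h6⟩
    refine ⟨b, h4, fun x hx => ?_⟩
    obtain ⟨y, h6, h7⟩ := h5 x hx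
    exact ⟨y, h6, (h3 x y).2 h7⟩

end

/-- Models of the class theory satisfy `ZFCU`. -/
theorem zfcu_of_class {M C : Type u} [L.Structure M] {η : M → C → Prop} (h : GBUR M C η)
    (hc : ClassCollection M C η) : ZFCU M where
  toZFCUR := h.zfcur
  collection R hR w hw hx := by
    haveI : IsModel M := (h.zfcur.zm).toIsModel
    have h0 : D (fun v : Fin 2 → M => (v 0, v 1) ∈ R) := hR
    have hD : D (fun v : Fin 1 → M => ∃ x y, v 0 = op x y ∧ (x, y) ∈ R) :=
      D.ex (D.ex (D.and (D.eqf (DF.var _) (DF.op (DF.var _) (DF.var _)))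
        (h0.reindex ![Sum.inl (Sum.inr ()), Sum.inr ()])))
    obtain ⟨Y, hY⟩ := h.comprehension {z | ∃ x y, z = op x y ∧ (x, y) ∈ R} (DS.ofD hD)
    have h4 : ∀ x y, PairInClass η Y x y ↔ (x, y) ∈ R := by
      intro x y
      constructor
      · rintro ⟨p, h5, h6⟩
        obtain ⟨x', y', h7, h8⟩ := (hY p).1 h6
        rw [isOrdPair_iff] at h5
        rw [h5] at h7
        obtain ⟨rfl, rfl⟩ := op_inj h7
        exact h8
      · intro h5
        exact ⟨op x y, isOrdPair_iff.2 rfl, (hY _).2 ⟨x, y, rfl, h5⟩⟩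
    obtain ⟨v, hv, h5⟩ := hc Y w hw fun x hx' => by
      obtain ⟨y, hy⟩ := hx x hx'
      exact ⟨y, (h4 x y).2 hy⟩
    refine ⟨v, hv, fun x hx' => ?_⟩
    obtain ⟨y, h6, h7⟩ := h5 x hx'
    exact ⟨y, h6, (h4 x y).1 h7⟩

/-- Models of the class theory satisfy the sentence. -/
theorem setOrPlenty_of_class {M C : Type u} [L.Structure M] {η : M → C → Prop}
    (h : GBUR M C η) (hc : ClassCollection M C η) (hg : GlobalChoice M C η) :
    SetOrPlenty M := by
  haveI : IsModel M := (h.zfcur.zm).toIsModel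
  obtain ⟨G, hG⟩ := exists_GM h hc hg
  rcases hG.plenitude with h1 | h1
  · exact Or.inl h1
  · refine Or.inr fun k => ?_
    obtain ⟨B, hB, hB'⟩ := h1 k
    exact ⟨B, hB, fun ⟨f, hf⟩ => hB' ⟨f, injP_iff.1 hf⟩⟩

end Pool.Agent.UR78
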