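import Pool.Agent.UR78.Move

/-!
# Extending small conditions by small conditions
-/

namespace Pool.Agent.UR78

open FirstOrder FirstOrder.Language
open Pool.Agent.Helper672.ZFA Pool.Agent.H839R3

universe u

variable {M : Type u} [L.Structure M] [hM : ZM M]

/-- Collection. -/
def Coll (M : Type u) [L.Structure M] : Prop :=
  ∀ R : M → M → Prop, D (fun v : Fin 2 → M => R (v 0) (v 1)) →
    ∀ a, (∀ x, Mem x a → ∃ y, R x y) → ∃ b, ∀ x, Mem x a → ∃ y, Mem y b ∧ R x y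

theorem rd_dense {Φ : M → M → M → Prop} (x : M) {q : M} (hq : Cond q) :
    ∃ q', Cond q' ∧ MSub q q' ∧ Rd Φ x q' := by
  by_cases h : ∀ r, Cond r → MSub q r → ∀ y, ¬ Φ x y r
  · exact ⟨q, hq, fun _ => id, Or.inr h⟩
  · push Not at h
    obtain ⟨r, h1, h2, y, h3⟩ := h
    exact ⟨r, h1, h2, Or.inl ⟨y, h3⟩⟩

theorem rd_aut {Φ : M → M → M → Prop} {E x q : M} (hs : Supp E Φ) {π : M → M} (hπ : Aut π)
    (hfix : ∀ x, Over E x → π x = x) (h : Rd Φ x q) : Rd Φ (π x) (π q) := by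
  rcases h with ⟨y, hy⟩ | h
  · exact Or.inl ⟨π y, hs π hπ hfix x y q hy⟩
  · refine Or.inr fun r hr h1 y hy => h (π r) (hπ.cond hr) ?_ (π y) ?_
    · have h2 := hπ.sub h1
      rwa [hπ.invol] at h2
    · have h2 := hs π hπ hfix _ _ _ hy
      rwa [hπ.invol] at h2

/-- Conditions of size `S` have extensions of size `T` that decide the values. -/
def Gd (Φ : M → M → M → Prop) (p a S T : M) : Prop := ∀ q t f, Cond q → MSub p q →
  Sm S q t f → ∀ x, Mem x a → ∃ q' t' f', Cond q' ∧ MSub q q' ∧ Sm T q' t' f' ∧ Rd Φ x q'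

theorem D.gd {Φ : M → M → M → Prop} (hΦ : Nm Φ) (p a : M) {ι : Type} {f g : (ι → M) → M}
    (hf : DF f) (hg : DF g) : D (fun v => Gd Φ p a (f v) (g v)) := by
  have h : D (fun v : Fin 2 → M => Gd Φ p a (v 0) (v 1)) := by
    unfold Gd
    refine D.all (D.all (D.all (D.imp (D.cond (DF.var _)) (D.imp (D.msub (DF.const _) (DF.var _))
      (D.imp (D.sm (DF.var _) (DF.var _) (DF.var _) (DF.var _)) (D.all (D.imp
      (D.memf (DF.var _) (DF.const _)) (D.ex (D.ex (D.ex (D.and (D.cond (DF.var _)) (D.and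
      (D.msub (DF.var _) (DF.var _)) (D.and (D.sm (DF.var _) (DF.var _) (DF.var _) (DF.var _))
      (D.rd hΦ (DF.var _) (DF.var _)))))))))))))))
  exact D.subst₂ h hf hg

theorem over_em {E T : M} (hE : Ur E) (hT : Lev (em M) T) : Over E T :=
  Over.mono ur_em hE (em_sub E) T hT.over

/-- The urelements of a set over `E` are in `E`. -/
theorem Over.ur_mem {E x u : M} (hE : Ur E) (h : Over E x) (hu : Mem u x) (hu' : ¬ IsSet u) :
    Mem u E := by
  rcases h.mem hE hu with h1 | h1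
  · exact h1.2
  · exact absurd h1.1 hu'

theorem exists_gd (hc : Coll M) (hpl : Plenty M) {Φ : M → M → M → Prop} (hΦ : Nm Φ)
    {E p a : M} (hE : Ur E) (hs : Supp E Φ) (ha : Over E a) {S : M}
    (hS : Lev (em M) S) : ∃ T, Lev (em M) T ∧ Gd Φ p a S T := by
  obtain ⟨F, hF, hFE, m0, hm0⟩ := exists_ur_big hpl E S
  obtain ⟨Q, hQ⟩ := exists_small_set S (sm_union E F).elt
  obtain ⟨v, hv⟩ := hc (fun z q' => ∀ x q, z = op x q → Cond q → Cond q' ∧ MSub q q' ∧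
      Rd Φ x q') (D.all (D.all (D.imp (D.eqf (DF.var _) (DF.op (DF.var _) (DF.var _))) (D.imp
      (D.cond (DF.var _)) (D.and (D.cond (DF.var _)) (D.and (D.msub (DF.var _) (DF.var _))
      (D.rd hΦ (DF.var _) (DF.var _)))))))) (small_prod a Q).elt (by
    intro z hz
    obtain ⟨x, q, h1, h2, rfl⟩ := (small_prod _ _).mem.1 hz
    by_cases hq : Cond q
    · obtain ⟨q', h3, h4, h5⟩ := rd_dense (Φ := Φ) x hq
      refine ⟨q', fun x' q'' h6 _ => ?_⟩
      obtain ⟨rfl, rfl⟩ := op_inj h6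
      exact ⟨h3, h4, h5⟩
    · refine ⟨q, fun x' q'' h6 h7 => ?_⟩
      obtain ⟨rfl, rfl⟩ := op_inj h6
      exact absurd h7 hq)
  obtain ⟨t0, ht0, ht0'⟩ := exists_trans v
  obtain ⟨T, hT, f0, hf0⟩ := exists_pure_level t0
  refine ⟨T, hT, fun q t f hq hpq hsm x hx => ?_⟩
  have h1 := small_sep (S := {u | ¬ IsSet u}) (D.not (D.isSetf (DF.var _))) t
  have hQ0 : Ur h1.elt := ⟨h1.isSet, fun u hu => (h1.mem.1 hu).2⟩
  obtain ⟨m, hm, -⟩ := injF_comp hsm.2.2.2.2 hm0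
  obtain ⟨π, π', hπ, hπ', hfix, hfix', hmv⟩ := exists_move hpl (m := m) hE hQ0 hF hFE
    (fun u hu _ => by
      obtain ⟨y, hy⟩ := hm.2.2.1 u (h1.mem.1 hu).1
      exact ⟨y, (InjF.mem hm hy).2, hy⟩) hm.2.2.2.1 hm.2.2.2.2
  have hSE := over_em hE hS
  have hTE := over_em hE hT
  have hxE := ha.mem hE hx
  have e1 : π' (π S) = S := by rw [hfix S hSE, hfix' S hSE]
  have e2 : π (π' T) = T := by rw [hfix' T hTE, hfix T hTE]
  have e3 : π (π' x) = x := by rw [hfix' x hxE, hfix x hxE]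
  have hsm1 : Sm S (π' (π q)) (π' (π t)) (π' (π f)) := by
    have := Aut.sm hπ' (Aut.sm hπ hsm)
    rwa [e1] at this
  have htQ : Over h1.elt t := over_of hQ0 hsm.2.1 fun y hy => over_of_trans hQ0 hsm.2.2.2.1
    (fun u h2 h3 => h1.mem.2 ⟨h2, h3⟩) y hy
  have h2 : Mem (π' (π q)) Q := hQ _ _ _ hsm1 fun u hu hu' =>
    Over.ur_mem (ur_union hE hF) (hmv t htQ) hu hu'
  obtain ⟨q2, h3, h4⟩ := hv (op x (π' (π q))) ((small_prod _ _).mem.2 ⟨x, _, hx, h2, rfl⟩)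
  obtain ⟨h5, h6, h7⟩ := h4 x _ rfl (hπ'.cond (hπ.cond hq))
  have h8 : Sm T q2 t0 f0 := ⟨h5.1, hM.atoms _ _ (ht0 q2 h3), fun z hz => ht0' q2 z (ht0 q2 h3) hz,
    ht0', hf0⟩
  refine ⟨π (π' q2), π (π' t0), π (π' f0), hπ.cond (hπ'.cond h5), ?_, ?_, ?_⟩
  · have h9 := hπ.sub (hπ'.sub h6)
    rwa [hπ'.invol, hπ.invol] at h9
  · have := Aut.sm hπ (Aut.sm hπ' h8)
    rwa [e2] at this
  · have := rd_aut hs hπ hfix (rd_aut hs hπ' hfix' h7)
    rwa [e3] at this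

end Pool.Agent.UR78
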