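import Pool.Agent.UR78.Size

/-!
# Moving urelements, and the small sets over a set of urelements
-/

namespace Pool.Agent.UR78

open FirstOrder FirstOrder.Language
open Pool.Agent.Helper672.ZFA Pool.Agent.H839R3

universe u

variable {M : Type u} [L.Structure M] [hM : ZM M]

/-- The involution of the urelements given by a bijection between disjoint sets. -/
def Sg (f C C' x y : M) : Prop := Mem (op x y) f ∨ Mem (op y x) f ∨
  (x = y ∧ ¬ Mem x C ∧ ¬ Mem x C')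

theorem exists_swap {C C' f : M} (hC : Ur C) (hC' : Ur C') (hdis : ∀ u, Mem u C → ¬ Mem u C')
    (hf : Bij f C C') : ∃ π : M → M, Aut π ∧
      (∀ E, Ur E → (∀ u, Mem u E → ¬ Mem u C ∧ ¬ Mem u C') → ∀ x, Over E x → π x = x) ∧
      ∀ E E', Ur E → Ur E' → (∀ u v, Mem u E → Sg f C C' u v → Mem v E') →
        ∀ x, Over E x → Over E' (π x) := by
  obtain ⟨f1, f2, f3, f4⟩ := hf
  have hD : D (fun v : Fin 2 → M => Sg f C C' (v 0) (v 1)) :=
    D.or (D.memf (DF.op (DF.var _) (DF.var _)) (DF.const _)) (D.or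
      (D.memf (DF.op (DF.var _) (DF.var _)) (DF.const _)) (D.and (D.eqf (DF.var _) (DF.var _))
      (D.and (D.not (D.memf (DF.var _) (DF.const _))) (D.not (D.memf (DF.var _) (DF.const _))))))
  have huniq : ∀ x y y', ¬ IsSet x → Sg f C C' x y → Sg f C C' x y' → y = y' := by
    intro x y y' _
    rintro (h4 | h4 | ⟨h4, h5, h6⟩) (h4' | h4' | ⟨h4', h5', h6'⟩)
    · exact (f4 x x y y' h4 h4').1 rfl
    · exact absurd (f1 y' x h4').2 (hdis x (f1 x y h4).1)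
    · exact absurd (f1 x y h4).1 h5'
    · exact absurd (f1 y x h4).2 (hdis x (f1 x y' h4').1)
    · exact (f4 y y' x x h4 h4').2 rfl
    · exact absurd (f1 y x h4).2 h6'
    · exact absurd (f1 x y' h4').1 h5
    · exact absurd (f1 y' x h4').2 h6
    · exact h4.symm.trans h4'
  obtain ⟨π, hπ, hsim⟩ := exists_aut (M := M) (sg := Sg f C C') hD
    (fun x hx => by
      by_cases h4 : Mem x C
      · obtain ⟨y, hy⟩ := f2 x h4
        exact ⟨y, hC'.2 y (f1 x y hy).2, Or.inl hy⟩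
      · by_cases h5 : Mem x C'
        · obtain ⟨y, hy⟩ := f3 x h5
          exact ⟨y, hC.2 y (f1 y x hy).1, Or.inr (Or.inl hy)⟩
        · exact ⟨x, hx, Or.inr (Or.inr ⟨rfl, h4, h5⟩)⟩)
    huniq
    (fun x y => by
      rintro (h4 | h4 | ⟨rfl, h5, h6⟩)
      · exact Or.inr (Or.inl h4)
      · exact Or.inl h4
      · exact Or.inr (Or.inr ⟨rfl, h5, h6⟩))
  exact ⟨π, hπ, fun E hE h x hx => Sim.unique hD huniq x _ _ (hsim x)
    (Sim.fix hD hE (fun u hu => Or.inr (Or.inr ⟨rfl, h u hu⟩)) x hx),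
    fun E E' hE hE' h x hx => Sim.move hD hE hE' h x hx (π x) (hsim x)⟩

/-- A bijection from an injection. -/
theorem bij_range {f A B : M} (hf : InjF f A B) : ∃ R, IsSet R ∧ MSub R B ∧ Bij f A R ∧
    ∀ y, Mem y R ↔ ∃ x, Mem (op x y) f := by
  have h1 := small_sep (S := {y | ∃ x, Mem (op x y) f}) (D.ex (D.memf (DF.op (DF.var _)
    (DF.var _)) (DF.const _))) B
  have h2 : ∀ y, Mem y h1.elt ↔ ∃ x, Mem (op x y) f := fun y =>
    h1.mem.trans ⟨fun h => h.2, fun ⟨x, hx⟩ => ⟨(InjF.mem hf hx).2, x, hx⟩⟩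
  refine ⟨h1.elt, h1.isSet, fun y hy => (h1.mem.1 hy).1, ⟨fun x y h => ⟨(InjF.mem hf h).1,
    (h2 y).2 ⟨x, h⟩⟩, hf.2.2.1, fun y hy => (h2 y).1 hy, fun x x' y y' h h' => ⟨?_, ?_⟩⟩, h2⟩
  · rintro rfl
    exact hf.2.2.2.1 x y y' h h'
  · rintro rfl
    exact hf.2.2.2.2 x x' y h h'

/-- Moving the urelements of `Q` outside `E` into `F`. -/
theorem exists_move (hpl : Plenty M) {E Q F m : M} (hE : Ur E) (hQ : Ur Q) (hF : Ur F)
    (hEF : ∀ u, Mem u F → ¬ Mem u E)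
    (h1 : ∀ x, Mem x Q → ¬ Mem x E → ∃ y, Mem y F ∧ Mem (op x y) m)
    (h2 : ∀ x y y', Mem (op x y) m → Mem (op x y') m → y = y')
    (h3 : ∀ x x' y, Mem (op x y) m → Mem (op x' y) m → x = x') :
    ∃ π π' : M → M, Aut π ∧ Aut π' ∧ (∀ x, Over E x → π x = x) ∧ (∀ x, Over E x → π' x = x) ∧
      ∀ x, Over Q x → Over (sm_union E F).elt (π' (π x)) := by
  have hC := small_sep (S := {u | ¬ Mem u E}) (D.not (D.memf (DF.var _) (DF.const _))) Q
  have hCu : Ur hC.elt := ⟨hC.isSet, fun u hu => hQ.2 u (hC.mem.1 hu).1⟩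
  obtain ⟨G, hG, hGd, g, hg⟩ := exists_ur_big hpl (sm_union (sm_union E Q).elt F).elt hC.elt
  have hGE : ∀ u, Mem u G → ¬ Mem u E := fun u hu h => hGd u hu ((sm_union _ _).mem.2
    (Or.inl ((sm_union _ _).mem.2 (Or.inl h))))
  have hGQ : ∀ u, Mem u G → ¬ Mem u Q := fun u hu h => hGd u hu ((sm_union _ _).mem.2
    (Or.inl ((sm_union _ _).mem.2 (Or.inr h))))
  have hGF : ∀ u, Mem u G → ¬ Mem u F := fun u hu h => hGd u hu ((sm_union _ _).mem.2
    (Or.inr h))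
  obtain ⟨R, hR0, hR1, hR2, hR3⟩ := bij_range hg
  have hRu : Ur R := ⟨hR0, fun u hu => hG.2 u (hR1 u hu)⟩
  obtain ⟨π, hπ, hfix, hmove⟩ := exists_swap hCu hRu
    (fun u h h' => hGQ u (hR1 u h') (hC.mem.1 h).1) hR2
  -- the second bijection
  obtain ⟨k, hk, hk'⟩ := exists_injF (M := M) (A := R) (B := F)
    (K := fun v w => Mem w F ∧ ∃ u, Mem (op u v) g ∧ Mem (op u w) m)
    (D.and (D.memf (DF.var _) (DF.const _)) (D.ex (D.and
      (D.memf (DF.op (DF.var _) (DF.var _)) (DF.const _))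
      (D.memf (DF.op (DF.var _) (DF.var _)) (DF.const _)))))
    (by
      rintro v w ⟨h4, u, h5, h6⟩
      exact ⟨(hR3 v).2 ⟨u, h5⟩, h4⟩)
    (by
      intro v hv
      obtain ⟨u, hu⟩ := (hR3 v).1 hv
      have h4 := hC.mem.1 (InjF.mem hg hu).1
      obtain ⟨y, h5, h6⟩ := h1 u h4.1 h4.2
      exact ⟨y, h5, u, hu, h6⟩)
    (by
      rintro v w w' ⟨-, u, h5, h6⟩ ⟨-, u', h5', h6'⟩
      obtain rfl := hg.2.2.2.2 u u' v h5 h5'
      exact h2 u w w' h6 h6')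
    (by
      rintro v v' w ⟨-, u, h5, h6⟩ ⟨-, u', h5', h6'⟩
      obtain rfl := h3 u u' w h6 h6'
      exact hg.2.2.2.1 u v v' h5 h5')
  obtain ⟨S, hS0, hS1, hS2, hS3⟩ := bij_range hk
  have hSu : Ur S := ⟨hS0, fun u hu => hF.2 u (hS1 u hu)⟩
  obtain ⟨π', hπ', hfix', hmove'⟩ := exists_swap hRu hSu
    (fun u h h' => hGF u (hR1 u h) (hS1 u h')) hS2
  refine ⟨π, π', hπ, hπ', fun x hx => hfix E hE (fun u hu => ⟨fun h => (hC.mem.1 h).2 hu,
    fun h => hGE u (hR1 u h) hu⟩) x hx, fun x hx => hfix' E hE (fun u hu =>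
    ⟨fun h => hGE u (hR1 u h) hu, fun h => hEF u (hS1 u h) hu⟩) x hx, fun x hx => ?_⟩
  have h4 : Over (sm_union E R).elt (π x) := by
    refine hmove Q _ hQ (ur_union hE hRu) ?_ x hx
    rintro u v hu (h | h | ⟨rfl, h, h'⟩)
    · exact (sm_union _ _).mem.2 (Or.inr (hR2.1 u v h).2)
    · exact absurd hu (hGQ u (hR1 u (hR2.1 v u h).2))
    · refine (sm_union _ _).mem.2 (Or.inl ?_)
      by_contra h5
      exact h (hC.mem.2 ⟨hu, h5⟩)
  refine hmove' _ _ (ur_union hE hRu) (ur_union hE hF) ?_ _ h4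
  rintro u v hu (h | h | ⟨rfl, h, h'⟩)
  · exact (sm_union _ _).mem.2 (Or.inr (hS1 v (hS2.1 u v h).2))
  · have h5 := hS1 u (hS2.1 v u h).2
    rcases (sm_union _ _).mem.1 hu with h6 | h6
    · exact absurd h6 (hEF u h5)
    · exact absurd h5 (hGF u (hR1 u h6))
  · rcases (sm_union _ _).mem.1 hu with h6 | h6
    · exact (sm_union _ _).mem.2 (Or.inl h6)
    · exact absurd h6 h

/-- `t` is a transitive set containing the elements of `q`, and `f` is an injection from `t`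
to `T`. -/
def Sm (T q t f : M) : Prop := IsSet q ∧ IsSet t ∧ MSub q t ∧
  (∀ x y, Mem x t → Mem y x → Mem y t) ∧ InjF f t T

theorem D.sm {ι : Type} {a b c d : (ι → M) → M} (ha : DF a) (hb : DF b) (hc : DF c) (hd : DF d) :
    D (fun v => Sm (a v) (b v) (c v) (d v)) := by
  unfold Sm
  exact D.and (D.isSetf hb) (D.and (D.isSetf hc) (D.and (D.msub hb hc) (D.and (D.all (D.all (D.imp
    (D.memf (DF.var _) hc.lift.lift) (D.imp (D.memf (DF.var _) (DF.var _)) (D.memf (DF.var _)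
    hc.lift.lift))))) (D.injF hd hc ha))))

theorem Aut.injF {π : M → M} (h : Aut π) {f A B : M} (hf : InjF f A B) :
    InjF (π f) (π A) (π B) := by
  have h0 : ∀ x y, Mem (op x y) (π f) ↔ Mem (op (π x) (π y)) f := fun x y => by
    rw [h.mem_left, h.op]
  refine ⟨(h.isSet _).2 hf.1, fun z hz => ?_, fun x hx => ?_, fun x y y' h1 h2 => ?_,
    fun x x' y h1 h2 => ?_⟩
  · obtain ⟨x, y, h1, h2, h3⟩ := hf.2.1 _ (h.mem_left.1 hz)
    exact ⟨π x, π y, (h.mem _ _).2 h1, (h.mem _ _).2 h2, by rw [← h.op, ← h3, h.invol]⟩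
  · obtain ⟨y, hy⟩ := hf.2.2.1 _ (h.mem_left.1 hx)
    exact ⟨π y, (h0 _ _).2 (by rwa [h.invol])⟩
  · have h3 := hf.2.2.2.1 _ _ _ ((h0 _ _).1 h1) ((h0 _ _).1 h2)
    have h4 := congrArg π h3
    rwa [h.invol, h.invol] at h4
  · have h3 := hf.2.2.2.2 _ _ _ ((h0 _ _).1 h1) ((h0 _ _).1 h2)
    have h4 := congrArg π h3
    rwa [h.invol, h.invol] at h4

theorem Aut.sm {π : M → M} (h : Aut π) {T q t f : M} (hs : Sm T q t f) :
    Sm (π T) (π q) (π t) (π f) := by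
  obtain ⟨h1, h2, h3, h4, h5⟩ := hs
  refine ⟨(h.isSet _).2 h1, (h.isSet _).2 h2, h.sub h3, fun x y hx hy => ?_, Aut.injF h h5⟩
  exact h.mem_left.2 (h4 _ _ (h.mem_left.1 hx) ((h.mem _ _).2 hy))

/-- A code of a small set. -/
def Kc (T c q : M) : Prop := ∃ t f, Sm T q t f ∧ ∃ r h n, c = op r (op h n) ∧
  (IsSet r ∧ ∀ z, Mem z r ↔ ∃ x y a b, Mem x y ∧ Mem (op x a) f ∧ Mem (op y b) f ∧
    z = op a b) ∧
  (IsSet h ∧ ∀ z, Mem z h ↔ ∃ x a, ¬ IsSet x ∧ Mem (op x a) f ∧ z = op a x) ∧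
  (IsSet n ∧ ∀ z, Mem z n ↔ ∃ x, Mem x q ∧ Mem (op x z) f)

theorem D.kc (T : M) : D (fun v : Fin 2 → M => Kc T (v 0) (v 1)) := by
  unfold Kc
  refine D.ex (D.ex (D.and (D.sm (DF.const _) (DF.var _) (DF.var _) (DF.var _)) (D.ex (D.ex (D.ex
    (D.and (D.eqf (DF.var _) (DF.op (DF.var _) (DF.op (DF.var _) (DF.var _)))) (D.and ?_ (D.and
    ?_ ?_))))))))
  · exact D.and (D.isSetf (DF.var _)) (D.all (D.iff (D.memf (DF.var _) (DF.var _)) (D.ex (D.ex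
      (D.ex (D.ex (D.and (D.memf (DF.var _) (DF.var _)) (D.and (D.memf (DF.op (DF.var _)
      (DF.var _)) (DF.var _)) (D.and (D.memf (DF.op (DF.var _) (DF.var _)) (DF.var _))
      (D.eqf (DF.var _) (DF.op (DF.var _) (DF.var _)))))))))))) 
  · exact D.and (D.isSetf (DF.var _)) (D.all (D.iff (D.memf (DF.var _) (DF.var _)) (D.ex (D.ex
      (D.and (D.not (D.isSetf (DF.var _))) (D.and (D.memf (DF.op (DF.var _)
      (DF.var _)) (DF.var _)) (D.eqf (DF.var _) (DF.op (DF.var _) (DF.var _)))))))))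
  · exact D.and (D.isSetf (DF.var _)) (D.all (D.iff (D.memf (DF.var _) (DF.var _)) (D.ex
      (D.and (D.memf (DF.var _) (DF.var _)) (D.memf (DF.op (DF.var _) (DF.var _))
      (DF.var _))))))

theorem Kc.unique {T c q q' : M} (h : Kc T c q) (h' : Kc T c q') : q = q' := by
  obtain ⟨t, f, ⟨s1, s2, s3, s4, s5⟩, r, hh, n, rfl, ⟨-, hr⟩, ⟨-, hh'⟩, -, hn⟩ := h
  obtain ⟨t', f', ⟨s1', s2', s3', s4', s5'⟩, r', h2, n', h3, ⟨-, hr'⟩, ⟨-, hh2⟩, -, hn'⟩ := h'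
  obtain ⟨rfl, h4⟩ := op_inj h3
  obtain ⟨rfl, rfl⟩ := op_inj h4
  have key : ∀ x, ∀ x' a, Mem (op x a) f → Mem (op x' a) f' → x = x' := by
    refine mem_ind (S := fun x => ∀ x' a, Mem (op x a) f → Mem (op x' a) f' → x = x') (D.all (D.all
      (D.imp (D.memf (DF.op (DF.var _) (DF.var _)) (DF.const _)) (D.imp (D.memf (DF.op (DF.var _)
      (DF.var _)) (DF.const _)) (D.eqf (DF.var _) (DF.var _)))))) ?_
    intro x ih x' a hx hx'
    by_cases hxs : IsSet x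
    · have hxs' : IsSet x' := by
        by_contra hxs'
        obtain ⟨y, b, h5, h6, h7⟩ := (hh' _).1 ((hh2 _).2 ⟨x', a, hxs', hx', rfl⟩)
        obtain ⟨rfl, rfl⟩ := op_inj h7
        obtain rfl := s5.2.2.2.2 _ _ _ hx h6
        exact h5 hxs
      refine hM.ext _ _ hxs hxs' fun z => ⟨fun hz => ?_, fun hz => ?_⟩
      · obtain ⟨b, hb⟩ := s5.2.2.1 z (s4 x z (InjF.mem s5 hx).1 hz)
        obtain ⟨y, y', b', a', h5, h6, h7, h8⟩ := (hr' _).1 ((hr _).2 ⟨z, x, b, a, hz, hb, hx, rfl⟩)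
        obtain ⟨rfl, rfl⟩ := op_inj h8
        obtain rfl := s5'.2.2.2.2 _ _ _ hx' h7
        rwa [ih z hz y _ hb h6]
      · obtain ⟨b, hb⟩ := s5'.2.2.1 z (s4' x' z (InjF.mem s5' hx').1 hz)
        obtain ⟨y, y', b', a', h5, h6, h7, h8⟩ := (hr _).1 ((hr' _).2 ⟨z, x', b, a, hz, hb, hx',
          rfl⟩)
        obtain ⟨rfl, rfl⟩ := op_inj h8
        obtain rfl := s5.2.2.2.2 _ _ _ hx h7
        rwa [← ih y h5 z _ h6 hb]
    · obtain ⟨y, b, h5, h6, h7⟩ := (hh2 _).1 ((hh' _).2 ⟨x, a, hxs, hx, rfl⟩)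
      obtain ⟨rfl, rfl⟩ := op_inj h7
      exact s5'.2.2.2.2 _ _ _ h6 hx'
  refine hM.ext _ _ s1 s1' fun z => ⟨fun hz => ?_, fun hz => ?_⟩
  · obtain ⟨a, ha⟩ := s5.2.2.1 z (s3 z hz)
    obtain ⟨x, h5, h6⟩ := (hn' a).1 ((hn a).2 ⟨z, hz, ha⟩)
    rwa [key z x a ha h6]
  · obtain ⟨a, ha⟩ := s5'.2.2.1 z (s3' z hz)
    obtain ⟨x, h5, h6⟩ := (hn a).1 ((hn' a).2 ⟨z, hz, ha⟩)
    rwa [← key x z a h6 ha]

theorem exists_kc {T F q t f : M} (h : Sm T q t f) (hF : ∀ u, Mem u t → ¬ IsSet u → Mem u F) :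
    ∃ c, Kc T c q ∧ Mem c (small_prod (small_power (small_prod T T).elt).elt
      (small_prod (small_power (small_prod T F).elt).elt (small_power T).elt).elt).elt := by
  have hf := h.2.2.2.2
  have h1 := small_sep (S := {z | ∃ x y a b, Mem x y ∧ Mem (op x a) f ∧ Mem (op y b) f ∧
    z = op a b}) (D.ex (D.ex (D.ex (D.ex (D.and (D.memf (DF.var _) (DF.var _)) (D.and
      (D.memf (DF.op (DF.var _) (DF.var _)) (DF.const _)) (D.and (D.memf (DF.op (DF.var _)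
      (DF.var _)) (DF.const _)) (D.eqf (DF.var _) (DF.op (DF.var _) (DF.var _))))))))))
    (small_prod T T).elt
  have h2 := small_sep (S := {z | ∃ x a, ¬ IsSet x ∧ Mem (op x a) f ∧ z = op a x}) (D.ex (D.ex
    (D.and (D.not (D.isSetf (DF.var _))) (D.and (D.memf (DF.op (DF.var _) (DF.var _))
    (DF.const _)) (D.eqf (DF.var _) (DF.op (DF.var _) (DF.var _))))))) (small_prod T F).elt
  have h3 := small_sep (S := {z | ∃ x, Mem x q ∧ Mem (op x z) f}) (D.ex (D.and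
    (D.memf (DF.var _) (DF.const _)) (D.memf (DF.op (DF.var _) (DF.var _)) (DF.const _)))) T
  refine ⟨op h1.elt (op h2.elt h3.elt), ⟨t, f, h, h1.elt, h2.elt, h3.elt, rfl,
    ⟨h1.isSet, fun z => h1.mem.trans ⟨fun h => h.2, fun h => ⟨?_, h⟩⟩⟩,
    ⟨h2.isSet, fun z => h2.mem.trans ⟨fun h => h.2, fun h => ⟨?_, h⟩⟩⟩,
    ⟨h3.isSet, fun z => h3.mem.trans ⟨fun h => h.2, fun h => ⟨?_, h⟩⟩⟩⟩, ?_⟩
  · obtain ⟨x, y, a, b, h4, h5, h6, rfl⟩ := h
    exact (small_prod _ _).mem.2 ⟨a, b, (InjF.mem hf h5).2, (InjF.mem hf h6).2, rfl⟩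
  · obtain ⟨x, a, h4, h5, rfl⟩ := h
    exact (small_prod _ _).mem.2 ⟨a, x, (InjF.mem hf h5).2, hF x (InjF.mem hf h5).1 h4, rfl⟩
  · obtain ⟨x, h4, h5⟩ := h
    exact (InjF.mem hf h5).2
  · refine (small_prod _ _).mem.2 ⟨_, _, (small_power _).mem.2 ⟨h1.isSet, fun z hz =>
      (h1.mem.1 hz).1⟩, (small_prod _ _).mem.2 ⟨_, _, (small_power _).mem.2 ⟨h2.isSet,
      fun z hz => (h2.mem.1 hz).1⟩, (small_power _).mem.2 ⟨h3.isSet, fun z hz =>
      (h3.mem.1 hz).1⟩, rfl⟩, rfl⟩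

/-- The small sets over a set of urelements form a set. -/
theorem exists_small_set (T F : M) : ∃ Q : M, ∀ q t f, Sm T q t f →
    (∀ u, Mem u t → ¬ IsSet u → Mem u F) → Mem q Q := by
  obtain ⟨Q, -, hQ⟩ := hM.repl (fun c q => Kc T c q ∨ ((∀ q', ¬ Kc T c q') ∧ q = T))
    (D.or (D.kc T) (D.and (D.all (D.not (D.subst₂ (D.kc T) (DF.var _) (DF.var _))))
      (D.eqf (DF.var _) (DF.const _))))
    (small_prod (small_power (small_prod T T).elt).elt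
      (small_prod (small_power (small_prod T F).elt).elt (small_power T).elt).elt).elt (by
    intro c _
    by_cases h : ∃ q, Kc T c q
    · obtain ⟨q, hq⟩ := h
      refine ⟨q, Or.inl hq, ?_⟩
      rintro q' (h | ⟨h, -⟩)
      · exact h.unique hq
      · exact absurd hq (h q)
    · refine ⟨T, Or.inr ⟨fun q' hq' => h ⟨q', hq'⟩, rfl⟩, ?_⟩
      rintro q' (h' | ⟨-, h'⟩)
      · exact absurd ⟨q', h'⟩ h
      · exact h')
  refine ⟨Q, fun q t f h hF => ?_⟩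
  obtain ⟨c, h1, h2⟩ := exists_kc h hF
  exact (hQ q).2 ⟨c, h2, Or.inl h1⟩

theorem Sm.mono {T T' q t f : M} (h : Sm T q t f) (hT : MSub T T') : Sm T' q t f := by
  obtain ⟨h1, h2, h3, h4, h5, h6, h7, h8, h9⟩ := h
  refine ⟨h1, h2, h3, h4, h5, fun z hz => ?_, h7, h8, h9⟩
  obtain ⟨x, y, h10, h11, h12⟩ := h6 z hz
  exact ⟨x, y, h10, hT y h11, h12⟩

/-- A transitive set is over its urelements. -/
theorem over_of_trans {t Q : M} (hQ : Ur Q) (ht : ∀ x y, Mem x t → Mem y x → Mem y t)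
    (h : ∀ u, Mem u t → ¬ IsSet u → Mem u Q) (x : M) : (Mem x t → Over Q x) := by
  refine mem_ind (S := fun x => Mem x t → Over Q x) (D.imp (D.memf (DF.var _) (DF.const _))
    (D.over (DF.const _) (DF.var _))) ?_ x
  intro x ih hx
  by_cases hxs : IsSet x
  · exact over_of hQ hxs fun y hy => ih y hy (ht x y hx hy)
  · exact Or.inl ⟨hxs, h x hx hxs⟩

end Pool.Agent.UR78
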