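import Pool.Agent.UR78.Gen

/-!
# Plenitude
-/

namespace Pool.Agent.UR78

open FirstOrder FirstOrder.Language
open Pool.Agent.Helper672.ZFA Pool.Agent.H839R3

universe u

/-- The urelements form a set, or Plenitude holds: every set is in bijection with a set of
urelements (equivalently, by the axiom of choice, there is a set of urelements of every
cardinality). -/
def SetOrPlenitude (M : Type u) [L.Structure M] : Prop :=
  (∃ a : M, ∀ u, ¬ IsSet u → Mem u a) ∨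
    ∀ k : M, IsSet k → ∃ B, Ur B ∧ ∃ f, InjP f k B ∧ ∀ y, Mem y B → ∃ x, PairIn f x y

/-- The sentence. -/
theorem exists_sentence2 : ∃ σ : L.Sentence, ∀ (M : Type u) [L.Structure M],
    M ⊨ σ ↔ SetOrPlenitude M := by
  have h : SU.{u} (ι := Empty) (fun M _ _ => SetOrPlenitude M) := by
    unfold SetOrPlenitude Ur
    exact SU.or (SU.ex (SU.all (SU.imp (SU.not (SU.isSet _)) (SU.mem _ _)))) (SU.all (SU.imp
      (SU.isSet _) (SU.ex (SU.and (SU.and (SU.isSet _) (SU.all (SU.imp (SU.mem _ _) (SU.not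
      (SU.isSet _))))) (SU.ex (SU.and (SU.injP _ _ _) (SU.all (SU.imp (SU.mem _ _) (SU.ex
      (SU.pairIn _ _ _))))))))))
  obtain ⟨φ, hφ⟩ := h
  exact ⟨φ, fun M _ => hφ M default⟩

/-- The theorem of Cantor in a model. -/
theorem no_inj_power {M : Type u} [L.Structure M] [hM : ZM M] (k f : M)
    (hf : InjF f (small_power k).elt k) : False := by
  have h1 := small_sep (S := {x | ∃ s, Mem (op s x) f ∧ ¬ Mem x s}) (D.ex (D.and
    (D.memf (DF.op (DF.var _) (DF.var _)) (DF.const _)) (D.not (D.memf (DF.var _) (DF.var _))))) k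
  have h2 : Mem h1.elt (small_power k).elt :=
    (small_power k).mem.2 ⟨h1.isSet, fun z hz => (h1.mem.1 hz).1⟩
  obtain ⟨x, hx⟩ := hf.2.2.1 _ h2
  by_cases h3 : Mem x h1.elt
  · obtain ⟨-, s, h4, h5⟩ := h1.mem.1 h3
    obtain rfl := hf.2.2.2.2 _ _ _ hx h4
    exact h5 h3
  · exact h3 (h1.mem.2 ⟨(InjF.mem hf hx).2, _, hx, h3⟩)

theorem setOrPlenitude_iff {M : Type u} [L.Structure M] [hM : ZM M] :
    SetOrPlenitude M ↔ SetOrPlenty M := by
  refine or_congr_right ⟨fun h k => ?_, fun h k _ => ?_⟩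
  · have hk := small_sep (S := {x : M | x = x}) (D.eqf (DF.var _) (DF.var _)) k
    obtain ⟨B, hB, f, hf, hf'⟩ := h (small_power hk.elt).elt (small_power _).isSet
    refine ⟨B, hB, fun ⟨g, hg⟩ => ?_⟩
    rw [injP_iff] at hf hg
    obtain ⟨g', hg', -⟩ := injF_comp hf hg
    refine no_inj_power hk.elt g' ⟨hg'.1, fun z hz => ?_, hg'.2.2⟩
    obtain ⟨x, y, h1, h2, h3⟩ := hg'.2.1 z hz
    exact ⟨x, y, h1, hk.mem.2 ⟨h2, rfl⟩, h3⟩
  · have hpl : Plenty M := fun k => by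
      obtain ⟨B, hB, hB'⟩ := h k
      exact ⟨B, hB, fun ⟨f, hf⟩ => hB' ⟨f, injP_iff.2 hf⟩⟩
    obtain ⟨F, hF, -, f, hf⟩ := exists_ur_big hpl (em M) k
    obtain ⟨R, hR0, hR1, -, hR3⟩ := bij_range hf
    refine ⟨R, ⟨hR0, fun u hu => hF.2 u (hR1 u hu)⟩, f, injP_iff.2 ⟨hf.1, fun z hz => ?_,
      hf.2.2⟩, fun y hy => ?_⟩
    · obtain ⟨x, y, h1, h2, rfl⟩ := hf.2.1 z hz
      exact ⟨x, y, h1, (hR3 y).2 ⟨x, hz⟩, rfl⟩
    · obtain ⟨x, hx⟩ := (hR3 y).1 hy
      exact ⟨x, pairIn_iff.2 hx⟩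

end Pool.Agent.UR78
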