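import Pool.Graph.R_seed8.H839R3.Bridge

/-!
# Comparing sizes in a model of set theory with urelements
-/

namespace Pool.Agent.UR78

open FirstOrder FirstOrder.Language
open Pool.Agent.Helper672.ZFA Pool.Agent.H839R3

universe u

variable {M : Type u} [L.Structure M] [hM : ZM M]

theorem not_mem_self (x : M) : ¬ Mem x x := by
  intro h
  obtain ⟨y, h1, h2⟩ := hM.found (up x x) ⟨x, mem_up.2 (Or.inl rfl)⟩
  have h3 : y = x := by rcases mem_up.1 h1 with h | h <;> exact h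
  subst h3
  exact h2 y h1 h

/-- An injection from a definable relation. -/
theorem exists_injF {A B : M} {K : M → M → Prop}
    (hK : D (fun v : Fin 2 → M => K (v 0) (v 1)))
    (h1 : ∀ x y, K x y → Mem x A ∧ Mem y B) (h2 : ∀ x, Mem x A → ∃ y, K x y)
    (h3 : ∀ x y y', K x y → K x y' → y = y') (h4 : ∀ x x' y, K x y → K x' y → x = x') :
    ∃ f, InjF f A B ∧ ∀ x y, Mem (op x y) f ↔ K x y := by
  have h5 := small_sep (S := {z | ∃ x y, z = op x y ∧ K x y}) (D.ex (D.ex (D.and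
    (D.eqf (DF.var _) (DF.op (DF.var _) (DF.var _))) (D.subst₂ hK (DF.var _) (DF.var _)))))
    (small_prod A B).elt
  have h6 : ∀ x y, Mem (op x y) h5.elt ↔ K x y := by
    intro x y
    refine h5.mem.trans ⟨?_, fun h => ⟨?_, x, y, rfl, h⟩⟩
    · rintro ⟨-, x', y', h7, h8⟩
      obtain ⟨rfl, rfl⟩ := op_inj h7
      exact h8
    · exact (small_prod A B).mem.2 ⟨x, y, (h1 x y h).1, (h1 x y h).2, rfl⟩
  refine ⟨h5.elt, ⟨h5.isSet, fun z hz => ?_, fun x hx => ?_, fun x y y' h h' => ?_,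
    fun x x' y h h' => ?_⟩, h6⟩
  · obtain ⟨-, x, y, rfl, h7⟩ := h5.mem.1 hz
    exact ⟨x, y, (h1 x y h7).1, (h1 x y h7).2, rfl⟩
  · obtain ⟨y, hy⟩ := h2 x hx
    exact ⟨y, (h6 x y).2 hy⟩
  · exact h3 x y y' ((h6 _ _).1 h) ((h6 _ _).1 h')
  · exact h4 x x' y ((h6 _ _).1 h) ((h6 _ _).1 h')

theorem InjF.mem {f A B x y : M} (h : InjF f A B) (h1 : Mem (op x y) f) :
    Mem x A ∧ Mem y B := by
  obtain ⟨x', y', h2, h3, h4⟩ := h.2.1 _ h1
  obtain ⟨rfl, rfl⟩ := op_inj h4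
  exact ⟨h2, h3⟩

theorem injF_comp {f g A B C : M} (hf : InjF f A B) (hg : InjF g B C) :
    ∃ h, InjF h A C ∧ ∀ x z, Mem (op x z) h ↔ ∃ y, Mem (op x y) f ∧ Mem (op y z) g := by
  refine exists_injF (K := fun x z => ∃ y, Mem (op x y) f ∧ Mem (op y z) g)
    (D.ex (D.and (D.memf (DF.op (DF.var _) (DF.var _)) (DF.const _))
      (D.memf (DF.op (DF.var _) (DF.var _)) (DF.const _)))) ?_ ?_ ?_ ?_
  · rintro x z ⟨y, h1, h2⟩
    exact ⟨(InjF.mem hf h1).1, (InjF.mem hg h2).2⟩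
  · intro x hx
    obtain ⟨y, hy⟩ := hf.2.2.1 x hx
    obtain ⟨z, hz⟩ := hg.2.2.1 y (InjF.mem hf hy).2
    exact ⟨z, y, hy, hz⟩
  · rintro x z z' ⟨y, h1, h2⟩ ⟨y', h1', h2'⟩
    obtain rfl := hf.2.2.2.1 x y y' h1 h1'
    exact hg.2.2.2.1 y z z' h2 h2'
  · rintro x x' z ⟨y, h1, h2⟩ ⟨y', h1', h2'⟩
    obtain rfl := hg.2.2.2.2 y y' z h2 h2'
    exact hf.2.2.2.2 x x' y h1 h1'

theorem injF_sub {A B : M} (h : MSub A B) : ∃ f, InjF f A B := by
  obtain ⟨f, hf, -⟩ := exists_injF (M := M) (A := A) (B := B) (K := fun x y => Mem x A ∧ x = y)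
    (D.and (D.memf (DF.var _) (DF.const _)) (D.eqf (DF.var _) (DF.var _)))
    (fun x y h1 => ⟨h1.1, h1.2 ▸ h _ h1.1⟩) (fun x hx => ⟨x, hx, rfl⟩)
    (fun x y y' h h' => h.2.symm.trans h'.2) (fun x x' y h h' => h.2.trans h'.2.symm)
  exact ⟨f, hf⟩

/-- Comparability of sizes. -/
theorem injF_total (X Y : M) : (∃ f, InjF f X Y) ∨ ∃ f, InjF f Y X := by
  obtain ⟨r, hr⟩ := exists_WO X
  obtain ⟨s, hs⟩ := exists_WO Y
  obtain ⟨H, -, -, hH⟩ := hr.recursion (F := fun _ g y =>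
      (Mem y Y ∧ ¬ Mem y g ∧ ∀ y', Mem y' Y → ¬ Mem y' g → ¬ Mem (op y' y) s) ∨
      ((∀ y', Mem y' Y → Mem y' g) ∧ y = Y))
    (D.or (D.and (D.memf (DF.var _) (DF.const _)) (D.and (D.not (D.memf (DF.var _) (DF.var _)))
      (D.all (D.imp (D.memf (DF.var _) (DF.const _)) (D.imp (D.not (D.memf (DF.var _) (DF.var _)))
      (D.not (D.memf (DF.op (DF.var _) (DF.var _)) (DF.const _)))))))) (D.and (D.all (D.imp
      (D.memf (DF.var _) (DF.const _)) (D.memf (DF.var _) (DF.var _))))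
      (D.eqf (DF.var _) (DF.const _)))) (by
    intro j g _
    by_cases h : ∃ y, Mem y Y ∧ ¬ Mem y g
    · obtain ⟨y, h1, h2, h3⟩ := hs.least (fun y => ¬ Mem y g)
        (D.not (D.memf (DF.var _) (DF.const _))) h
      refine ⟨y, Or.inl ⟨h1, h2, h3⟩, ?_⟩
      rintro y' (⟨h4, h5, h6⟩ | ⟨h4, -⟩)
      · rcases hs.total y y' h1 h4 with h7 | h7 | h7
        · exact absurd h7 (h6 y h1 h2)
        · exact h7.symm
        · exact absurd h7 (h3 y' h4 h5)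
      · exact absurd (h4 y h1) h2
    · have h1 : ∀ y', Mem y' Y → Mem y' g := fun y' h1 => by
        by_contra h2
        exact h ⟨y', h1, h2⟩
      refine ⟨Y, Or.inr ⟨h1, rfl⟩, ?_⟩
      rintro y' (⟨h4, h5, -⟩ | ⟨-, h4⟩)
      · exact absurd (h1 y' h4) h5
      · exact h4)
  have v1 : ∀ j, Mem j X → ∃ y, ∀ y', Mem (op j y') H ↔ y' = y := by
    intro j hj
    obtain ⟨y, -, -, -, h⟩ := hH j hj
    exact ⟨y, h⟩
  have v2 : ∀ j, Mem j X → ∀ y, Mem (op j y) H →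
      (Mem y Y ∧ ∀ i, Mem i X → Mem (op i j) r → ¬ Mem (op i y) H) ∨
      ((∀ y', Mem y' Y → ∃ i, Mem i X ∧ Mem (op i j) r ∧ Mem (op i y') H) ∧ y = Y) := by
    intro j hj y hy
    obtain ⟨y0, g, hg, hF, h⟩ := hH j hj
    obtain rfl := (h y).1 hy
    rcases hF with ⟨h1, h2, -⟩ | ⟨h1, h2⟩
    · exact Or.inl ⟨h1, fun i hi hij h3 => h2 ((hg.2 y).2 ⟨i, hi, hij, h3⟩)⟩
    · exact Or.inr ⟨fun y' hy' => (hg.2 y').1 (h1 y' hy'), h2⟩
  have v3 : ∀ i j y, Mem i X → Mem j X → Mem (op i y) H → Mem (op j y) H → Mem y Y → i = j := by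
    have aux : ∀ i j y, Mem i X → Mem j X → Mem (op i y) H → Mem (op j y) H → Mem y Y →
        ¬ Mem (op i j) r := by
      intro i j y hi hj hiy hjy hy hij
      rcases v2 j hj y hjy with ⟨-, h1⟩ | ⟨-, rfl⟩
      · exact h1 i hi hij hiy
      · exact not_mem_self _ hy
    intro i j y hi hj hiy hjy hy
    rcases hr.total i j hi hj with h | h | h
    · exact absurd h (aux i j y hi hj hiy hjy hy)
    · exact h
    · exact absurd h (aux j i y hj hi hjy hiy hy)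
  by_cases hY : ∃ j, Mem j X ∧ Mem (op j Y) H
  · obtain ⟨j, hj, hjY⟩ := hY
    right
    have h1 : ∀ y', Mem y' Y → ∃ i, Mem i X ∧ Mem (op i j) r ∧ Mem (op i y') H := by
      rcases v2 j hj Y hjY with ⟨h, -⟩ | ⟨h, -⟩
      · exact absurd h (not_mem_self _)
      · exact h
    obtain ⟨f, hf, -⟩ := exists_injF (M := M) (A := Y) (B := X)
      (K := fun y i => Mem y Y ∧ Mem i X ∧ Mem (op i y) H)
      (D.and (D.memf (DF.var _) (DF.const _)) (D.and (D.memf (DF.var _) (DF.const _))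
        (D.memf (DF.op (DF.var _) (DF.var _)) (DF.const _))))
      (fun x y h => ⟨h.1, h.2.1⟩) (fun y hy => by
        obtain ⟨i, h2, -, h3⟩ := h1 y hy
        exact ⟨i, hy, h2, h3⟩) (fun y i i' h h' => v3 i i' y h.2.1 h'.2.1 h.2.2 h'.2.2 h.1)
      (fun y y' i h h' => by
        obtain ⟨z, hz⟩ := v1 i h.2.1
        rw [(hz y).1 h.2.2, (hz y').1 h'.2.2])
    exact ⟨f, hf⟩
  · left
    have h1 : ∀ j y, Mem j X → Mem (op j y) H → Mem y Y := by
      intro j y hj hy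
      rcases v2 j hj y hy with ⟨h, -⟩ | ⟨-, rfl⟩
      · exact h
      · exact absurd ⟨j, hj, hy⟩ hY
    obtain ⟨f, hf, -⟩ := exists_injF (M := M) (A := X) (B := Y)
      (K := fun i y => Mem i X ∧ Mem (op i y) H)
      (D.and (D.memf (DF.var _) (DF.const _))
        (D.memf (DF.op (DF.var _) (DF.var _)) (DF.const _)))
      (fun x y h => ⟨h.1, h1 x y h.1 h.2⟩) (fun i hi => by
        obtain ⟨y, hy⟩ := v1 i hi
        exact ⟨y, hi, (hy y).2 rfl⟩) (fun i y y' h h' => by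
        obtain ⟨z, hz⟩ := v1 i h.1
        rw [(hz y).1 h.2, (hz y').1 h'.2])
      (fun i i' y h h' => v3 i i' y h.1 h'.1 h.2 h'.2 (h1 i y h.1 h.2))
    exact ⟨f, hf⟩

variable (M) in
/-- The empty set. -/
noncomputable def em : M := (small_empty (M := M)).elt

theorem ur_em : Ur (em M) :=
  ⟨small_empty.isSet, fun u hu => absurd (small_empty.mem.1 hu) (Set.notMem_empty u)⟩

theorem em_sub (x : M) : MSub (em M) x := fun _ hz =>
  absurd (small_empty.mem.1 hz) (Set.notMem_empty _)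

/-- Every set injects into a pure level. -/
theorem exists_pure_level (X : M) : ∃ T, Lev (em M) T ∧ ∃ f, InjF f X T := by
  obtain ⟨r, hr⟩ := exists_WO X
  obtain ⟨H, -, -, hH⟩ := hr.recursion (F := fun _ g y => y = g) (D.eqf (DF.var _) (DF.var _))
    (fun _ g _ => ⟨g, rfl, fun _ h => h⟩)
  have v1 : ∀ j, Mem j X → ∃ y, ∀ y', Mem (op j y') H ↔ y' = y := by
    intro j hj
    obtain ⟨y, -, -, -, h⟩ := hH j hj
    exact ⟨y, h⟩
  have v2 : ∀ j, Mem j X → ∀ y, Mem (op j y) H → IsSet y ∧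
      ∀ z, Mem z y ↔ ∃ i, Mem i X ∧ Mem (op i j) r ∧ Mem (op i z) H := by
    intro j hj y hy
    obtain ⟨y0, g, hg, hF, h⟩ := hH j hj
    obtain rfl := (h y).1 hy
    obtain rfl : y = g := hF
    exact hg
  have v3 : ∀ j, Mem j X → ∀ y, Mem (op j y) H → Over (em M) y := by
    refine hr.ind (fun j => ∀ y, Mem (op j y) H → Over (em M) y) (D.all (D.imp
      (D.memf (DF.op (DF.var _) (DF.var _)) (DF.const _)) (D.over (DF.const _) (DF.var _)))) ?_
    intro j hj ih y hy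
    obtain ⟨h1, h2⟩ := v2 j hj y hy
    refine over_of ur_em h1 fun z hz => ?_
    obtain ⟨i, h3, h4, h5⟩ := (h2 z).1 hz
    exact ih i h3 h4 z h5
  have v4 : ∀ i j y, Mem i X → Mem j X → Mem (op i y) H → Mem (op j y) H → i = j := by
    have aux : ∀ i j y, Mem i X → Mem j X → Mem (op i y) H → Mem (op j y) H →
        ¬ Mem (op i j) r := fun i j y hi hj hiy hjy hij =>
      not_mem_self y (((v2 j hj y hjy).2 y).2 ⟨i, hi, hij, hiy⟩)
    intro i j y hi hj hiy hjy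
    rcases hr.total i j hi hj with h | h | h
    · exact absurd h (aux i j y hi hj hiy hjy)
    · exact h
    · exact absurd h (aux j i y hj hi hjy hiy)
  obtain ⟨b, hb0, hb⟩ := hM.repl (fun j t => Mem (op j t) H) (D.memf (DF.op (DF.var _) (DF.var _))
    (DF.const _)) X fun j hj => by
      obtain ⟨y, hy⟩ := v1 j hj
      exact ⟨y, (hy y).2 rfl, fun y' h => (hy y').1 h⟩
  have h1 : Over (em M) b := over_of ur_em hb0 fun y hy => by
    obtain ⟨j, h2, h3⟩ := (hb y).1 hy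
    exact v3 j h2 y h3
  obtain ⟨T, h2, h3⟩ := h1.lev ur_em
  refine ⟨T, h2, ?_⟩
  obtain ⟨f, hf, -⟩ := exists_injF (M := M) (A := X) (B := T)
    (K := fun i y => Mem i X ∧ Mem (op i y) H)
    (D.and (D.memf (DF.var _) (DF.const _))
      (D.memf (DF.op (DF.var _) (DF.var _)) (DF.const _)))
    (fun x y h => ⟨h.1, h3 y ((hb y).2 ⟨x, h.1, h.2⟩)⟩) (fun i hi => by
      obtain ⟨y, hy⟩ := v1 i hi
      exact ⟨y, hi, (hy y).2 rfl⟩) (fun i y y' h h' => by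
      obtain ⟨z, hz⟩ := v1 i h.1
      rw [(hz y).1 h.2, (hz y').1 h'.2])
    (fun i i' y h h' => v4 i i' y h.1 h'.1 h.2 h'.2)
  exact ⟨f, hf⟩

/-- There is no bound on the cardinalities of the sets of urelements. -/
def Plenty (M : Type u) [L.Structure M] [IsModel M] : Prop :=
  ∀ k : M, ∃ B, Ur B ∧ ¬ ∃ f, InjF f B k

theorem exists_ur_big (hpl : Plenty M) (d T : M) :
    ∃ F, Ur F ∧ (∀ u, Mem u F → ¬ Mem u d) ∧ ∃ f, InjF f T F := by
  have hk := sm_union (small_prod d (up (em M) (em M))).elt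
    (small_prod T (up (up (em M) (em M)) (up (em M) (em M)))).elt
  obtain ⟨B, hB, hno⟩ := hpl hk.elt
  have hF := small_sep (S := {u | ¬ Mem u d}) (D.not (D.memf (DF.var _) (DF.const _))) B
  have hFu : Ur hF.elt := ⟨hF.isSet, fun u hu => hB.2 u (hF.mem.1 hu).1⟩
  refine ⟨hF.elt, hFu, fun u hu => (hF.mem.1 hu).2, ?_⟩
  rcases injF_total T hF.elt with h | ⟨f, hf⟩
  · exact h
  exfalso
  apply hno
  have hne : em M ≠ up (em M) (em M) := fun h =>
    not_mem_self (em M) (by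
      have h1 : Mem (em M) (up (em M) (em M)) := mem_up.2 (Or.inl rfl)
      rwa [← h] at h1)
  obtain ⟨g, hg, -⟩ := exists_injF (M := M) (A := B) (B := hk.elt)
    (K := fun x y => Mem x B ∧ ((Mem x d ∧ y = op x (em M)) ∨
      ∃ z, Mem (op x z) f ∧ y = op z (up (em M) (em M))))
    (D.and (D.memf (DF.var _) (DF.const _)) (D.or (D.and (D.memf (DF.var _) (DF.const _))
      (D.eqf (DF.var _) (DF.op (DF.var _) (DF.const _)))) (D.ex (D.and
      (D.memf (DF.op (DF.var _) (DF.var _)) (DF.const _)) (D.eqf (DF.var _)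
      (DF.op (DF.var _) (DF.const _)))))))
    (by
      rintro x y ⟨h1, ⟨h2, rfl⟩ | ⟨z, h2, rfl⟩⟩
      · exact ⟨h1, hk.mem.2 (Or.inl ((small_prod _ _).mem.2 ⟨x, em M, h2,
          mem_up.2 (Or.inl rfl), rfl⟩))⟩
      · exact ⟨h1, hk.mem.2 (Or.inr ((small_prod _ _).mem.2 ⟨z, _, (InjF.mem hf h2).2,
          mem_up.2 (Or.inl rfl), rfl⟩))⟩)
    (by
      intro x hx
      by_cases h : Mem x d
      · exact ⟨_, hx, Or.inl ⟨h, rfl⟩⟩
      · obtain ⟨z, hz⟩ := hf.2.2.1 x (hF.mem.2 ⟨hx, h⟩)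
        exact ⟨_, hx, Or.inr ⟨z, hz, rfl⟩⟩)
    (by
      rintro x y y' ⟨-, ⟨h2, rfl⟩ | ⟨z, h2, rfl⟩⟩ ⟨-, ⟨h3, rfl⟩ | ⟨z', h3, rfl⟩⟩
      · rfl
      · exact absurd h2 (hF.mem.1 (InjF.mem hf h3).1).2
      · exact absurd h3 (hF.mem.1 (InjF.mem hf h2).1).2
      · rw [hf.2.2.2.1 x z z' h2 h3])
    (by
      rintro x x' y ⟨-, ⟨h2, rfl⟩ | ⟨z, h2, rfl⟩⟩ ⟨-, ⟨h3, h4⟩ | ⟨z', h3, h4⟩⟩
      · exact (op_inj h4).1
      · exact absurd (op_inj h4).2 hne
      · exact absurd (op_inj h4).2.symm hne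
      · obtain ⟨rfl, -⟩ := op_inj h4
        exact hf.2.2.2.2 x x' z h2 h3)
  exact ⟨g, hg⟩

end Pool.Agent.UR78
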